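import Pool.Agent.V7H11.NP.Stable
import Pool.Agent.V7H11.NC.Final
import Pool.Agent.TH438.Levi.Main

set_option autoImplicit false

/-!
# Dimensions zero, one and two; the hypothesis in coordinates
-/

namespace Pool.Agent.V7H11.NP

open Set Module Real
open Pool.Agent.W396.Il

/-- the second part of the conjecture in dimension `k`, in coordinates -/
def InC (k : ℕ) : Prop :=
  ∀ Q : Set (Fin k → ℝ), Body Q → Cov (2 ^ k - 1) Q ∨
    ∃ (e : (Fin k → ℝ) ≃L[ℝ] (Fin k → ℝ)) (c : Fin k → ℝ), Q = {x | ∀ i, |e x i - c i| ≤ 1}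

theorem cov_aff {F G : Type*} [NormedAddCommGroup F] [NormedSpace ℝ F]
    [NormedAddCommGroup G] [NormedSpace ℝ G] (g : G ≃L[ℝ] F) (x₀ : F) {N : ℕ} {Q : Set F}
    (h : Cov N (aff g x₀ ⁻¹' Q)) : Cov N Q := by
  classical
  obtain ⟨T, hT, hc⟩ := h
  refine ⟨T.image g, Finset.card_image_le.trans hT, fun x hx => ?_⟩
  have hy : g.symm (x - x₀) ∈ aff g x₀ ⁻¹' Q := by
    show aff g x₀ (g.symm (x - x₀)) ∈ Q
    rw [aff_apply, g.apply_symm_apply, add_sub_cancel]
    exact hx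
  obtain ⟨t, ht, y, hyi, he⟩ := mem_iUnion₂.1 (hc hy)
  rw [← (aff g x₀).preimage_interior] at hyi
  refine mem_iUnion₂.2 ⟨_, Finset.mem_image_of_mem _ ht, aff g x₀ y, hyi, ?_⟩
  simp only at he ⊢
  have h1 := congrArg g he
  rw [g.apply_symm_apply, map_add] at h1
  rw [aff_apply]
  have h2 : x = x - x₀ + x₀ := by abel
  rw [h2, ← h1]
  abel

/-- the hypothesis can be checked in any space of dimension `k` -/
theorem inC_of {F : Type*} [NormedAddCommGroup F] [NormedSpace ℝ F] {k : ℕ}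
    (e₀ : F ≃L[ℝ] (Fin k → ℝ)) (h : ∀ Q : Set F, Body Q → Cov (2 ^ k - 1) Q ∨
      ∃ (e : F ≃L[ℝ] (Fin k → ℝ)) (c : Fin k → ℝ), Q = {x | ∀ i, |e x i - c i| ≤ 1}) :
    InC k := by
  intro Q hQ
  rcases h _ (body_transfer e₀ 0 hQ) with h1 | ⟨e, c, h1⟩
  · exact Or.inl (cov_aff e₀ 0 h1)
  · right
    refine ⟨e₀.symm.trans e, c, ?_⟩
    ext x
    have h2 : x ∈ Q ↔ e₀.symm x ∈ aff e₀ 0 ⁻¹' Q := by
      show x ∈ Q ↔ aff e₀ 0 (e₀.symm x) ∈ Q
      rw [aff_apply, zero_add, e₀.apply_symm_apply]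
    rw [h2, h1]
    rfl

theorem inC_zero : InC 0 := by
  intro Q hQ
  right
  refine ⟨ContinuousLinearEquiv.refl ℝ _, 0, ?_⟩
  obtain ⟨p, hp⟩ := hQ.2.2
  ext x
  constructor
  · intro _ i
    exact i.elim0
  · intro _
    rw [Subsingleton.elim x p]
    exact interior_subset hp

theorem inC_one : InC 1 := by
  refine inC_of (F := ℝ) (ContinuousLinearEquiv.funUnique (Fin 1) ℝ ℝ).symm fun Q hQ => ?_
  right
  obtain ⟨hconv, hcomp, p, hp⟩ := hQ
  have hne : Q.Nonempty := ⟨p, interior_subset hp⟩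
  have hIcc : Q = Icc (sInf Q) (sSup Q) :=
    eq_Icc_of_connected_compact ⟨hne, hconv.isPreconnected⟩ hcomp
  obtain ⟨a, ha⟩ : ∃ a, a = sInf Q := ⟨_, rfl⟩
  obtain ⟨b, hb⟩ : ∃ b, b = sSup Q := ⟨_, rfl⟩
  rw [← ha, ← hb] at hIcc
  rw [hIcc, interior_Icc] at hp
  have hab : a < b := hp.1.trans hp.2
  have hne : (2 / (b - a)) ≠ 0 := (div_pos two_pos (by linarith)).ne'
  refine ⟨(LinearEquiv.smulOfNeZero ℝ ℝ (2 / (b - a)) hne).toContinuousLinearEquiv.trans
    (ContinuousLinearEquiv.funUnique (Fin 1) ℝ ℝ).symm, fun _ => (a + b) / (b - a), ?_⟩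
  rw [hIcc]
  ext x
  have hx : ∀ i : Fin 1, ((LinearEquiv.smulOfNeZero ℝ ℝ (2 / (b - a))
      hne).toContinuousLinearEquiv.trans
      (ContinuousLinearEquiv.funUnique (Fin 1) ℝ ℝ).symm) x i = 2 / (b - a) * x := fun i => rfl
  have hba : 0 < b - a := by linarith
  have h1 : 2 / (b - a) * x - (a + b) / (b - a) = (2 * x - (a + b)) / (b - a) := by
    field_simp
  constructor
  · rintro ⟨h2, h3⟩ i
    rw [hx, h1, abs_le, le_div_iff₀ hba, div_le_iff₀ hba]
    constructor <;> linarith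
  · intro h2
    have h3 := h2 0
    rw [hx, h1, abs_le, le_div_iff₀ hba, div_le_iff₀ hba] at h3
    constructor <;> linarith [h3.1, h3.2]

open Pool.Agent.TH438.Levi in
/-- Levi's theorem with the conclusion that the body is a parallelogram -/
theorem levi_par {K : Set E2} (hK : Convex ℝ K) (hKc : IsCompact K) (hi : (interior K).Nonempty)
    (hno : ¬ ∃ W : Finset E2, W.card ≤ 3 ∧
      ∀ p ∈ K, ∃ w ∈ W, Pool.Agent.H843R3.Had2.Co K p w) :
    ∃ (e : E2 ≃L[ℝ] (Fin 2 → ℝ)) (c : Fin 2 → ℝ), K = {x | ∀ i, |e x i - c i| ≤ 1} := by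
  obtain ⟨s, t, hst, hts, ⟨p1, h1, h1'⟩, ⟨p2, h2, h2'⟩, ⟨p3, h3, h3'⟩, ⟨p4, h4, h4'⟩⟩ :=
    four hK hKc hi hno
  rw [F_two_pi] at h4'
  have hsin : sin (t - s) ≠ 0 :=
    (sin_pos_of_pos_of_lt_pi (by linarith) (by linarith)).ne'
  have a4 : ip s p4 = ip s p1 := le_antisymm (h1.2 _ h4.1) (h4'.2 _ h1.1)
  have a3 : ip s p3 = ip s p2 := by
    have e1 := h3.2 _ h2.1
    have e2 := h2'.2 _ h3.1
    rw [ip_add_pi, ip_add_pi] at e1 e2
    linarith
  have b2 : ip t p2 = ip t p1 := le_antisymm (h1'.2 _ h2.1) (h2.2 _ h1.1)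
  have b4 : ip t p4 = ip t p3 := by
    have e1 := h3'.2 _ h4.1
    have e2 := h4.2 _ h3.1
    rw [ip_add_pi, ip_add_pi] at e1 e2
    linarith
  have hs13 : ip s p3 < ip s p1 := by
    refine lt_of_le_of_ne (h1.2 _ h3.1) fun h => ?_
    refine no_pi hi (x := s) (p := p3) ⟨h3.1, fun x hx => ?_⟩ h3
    rw [h]; exact h1.2 x hx
  have ht13 : ip t p3 < ip t p1 := by
    refine lt_of_le_of_ne (h1'.2 _ h3.1) fun h => ?_
    refine no_pi hi (x := t) (p := p3) ⟨h3.1, fun x hx => ?_⟩ h3'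
    rw [h]; exact h1'.2 x hx
  obtain ⟨S, hS⟩ : ∃ S, S = ip s p1 - ip s p3 := ⟨_, rfl⟩
  obtain ⟨T, hT⟩ : ∃ T, T = ip t p1 - ip t p3 := ⟨_, rfl⟩
  have hS0 : 0 < S := by rw [hS]; linarith
  have hT0 : 0 < T := by rw [hT]; linarith
  -- the box
  have hbox : ∀ q, q ∈ K ↔ (ip s p3 ≤ ip s q ∧ ip s q ≤ ip s p1) ∧
      (ip t p3 ≤ ip t q ∧ ip t q ≤ ip t p1) := by
    intro q
    constructor
    · intro hq
      have q1 := h1.2 q hq
      have q2 := h1'.2 q hq
      have q3 := h3.2 q hq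
      have q4 := h3'.2 q hq
      rw [ip_add_pi, ip_add_pi] at q3 q4
      exact ⟨⟨by linarith, q1⟩, by linarith, q2⟩
    · rintro ⟨⟨q3, q1⟩, q4, q2⟩
      obtain ⟨a, ha⟩ : ∃ a, a = (ip s q - ip s p3) / (ip s p1 - ip s p3) := ⟨_, rfl⟩
      obtain ⟨b, hb⟩ : ∃ b, b = (ip t q - ip t p3) / (ip t p1 - ip t p3) := ⟨_, rfl⟩
      have ha0 : 0 ≤ a := by rw [ha]; exact div_nonneg (by linarith) (by linarith)
      have ha1 : a ≤ 1 := by rw [ha]; exact (div_le_one (by linarith)).2 (by linarith)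
      have hb0 : 0 ≤ b := by rw [hb]; exact div_nonneg (by linarith) (by linarith)
      have hb1 : b ≤ 1 := by rw [hb]; exact (div_le_one (by linarith)).2 (by linarith)
      have hsa : ip s q = a * ip s p1 + (1 - a) * ip s p3 := by
        have : a * (ip s p1 - ip s p3) = ip s q - ip s p3 := by
          rw [ha]; exact div_mul_cancel₀ _ (by linarith)
        linarith
      have htb : ip t q = b * ip t p1 + (1 - b) * ip t p3 := by
        have : b * (ip t p1 - ip t p3) = ip t q - ip t p3 := by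
          rw [hb]; exact div_mul_cancel₀ _ (by linarith)
        linarith
      have hq : q = (a * b) • p1 + ((1 - a) * b) • p2 + ((1 - a) * (1 - b)) • p3 +
          (a * (1 - b)) • p4 := by
        have hlin : ∀ (x c1 c2 c3 c4 : ℝ), ip x (c1 • p1 + c2 • p2 + c3 • p3 + c4 • p4) =
            c1 * ip x p1 + c2 * ip x p2 + c3 * ip x p3 + c4 * ip x p4 := by
          intro x c1 c2 c3 c4
          simp only [ip, PiLp.add_apply, PiLp.smul_apply, smul_eq_mul]
          ring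
        refine ext_ip hsin ?_ ?_
        · rw [hlin, a4, ← a3, hsa]; ring
        · rw [hlin, b4, b2, htb]; ring
      rw [hq]
      have e1 := hK h1.1 h2.1 ha0 (by linarith : (0 : ℝ) ≤ 1 - a) (by ring)
      have e2 := hK h4.1 h3.1 ha0 (by linarith : (0 : ℝ) ≤ 1 - a) (by ring)
      have e3 := hK e1 e2 hb0 (by linarith : (0 : ℝ) ≤ 1 - b) (by ring)
      convert e3 using 1
      module
  obtain ⟨g, hg0, hg1⟩ : ∃ g : E2 →ₗ[ℝ] (Fin 2 → ℝ), (∀ q, g q 0 = 2 / S * ip s q) ∧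
      ∀ q, g q 1 = 2 / T * ip t q := by
    refine ⟨{ toFun := fun q => ![2 / S * ip s q, 2 / T * ip t q], map_add' := ?_,
              map_smul' := ?_ }, fun q => rfl, fun q => rfl⟩
    · intro x y
      funext i
      fin_cases i <;> simp [ip] <;> ring
    · intro a x
      funext i
      fin_cases i <;> simp [ip] <;> ring
  have hS2 : 2 / S ≠ 0 := (div_pos two_pos hS0).ne'
  have hT2 : 2 / T ≠ 0 := (div_pos two_pos hT0).ne'
  have hinj : Function.Injective g := by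
    intro x y hxy
    refine ext_ip hsin ?_ ?_
    · have := congrFun hxy 0
      rw [hg0, hg0] at this
      exact mul_left_cancel₀ hS2 this
    · have := congrFun hxy 1
      rw [hg1, hg1] at this
      exact mul_left_cancel₀ hT2 this
  obtain ⟨e, he⟩ : ∃ e : E2 ≃L[ℝ] (Fin 2 → ℝ), ∀ q i, e q i = g q i :=
    ⟨(LinearMap.linearEquivOfInjective g hinj (by simp)).toContinuousLinearEquiv,
      fun q i => rfl⟩
  refine ⟨e, ![(ip s p1 + ip s p3) / S, (ip t p1 + ip t p3) / T], ?_⟩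
  ext q
  rw [hbox]
  have k0 : e q 0 - (ip s p1 + ip s p3) / S = (2 * ip s q - (ip s p1 + ip s p3)) / S := by
    rw [he, hg0]; field_simp
  have k1 : e q 1 - (ip t p1 + ip t p3) / T = (2 * ip t q - (ip t p1 + ip t p3)) / T := by
    rw [he, hg1]; field_simp
  constructor
  · rintro ⟨⟨q3, q1⟩, q4, q2⟩ i
    fin_cases i
    · show |e q 0 - (ip s p1 + ip s p3) / S| ≤ 1
      rw [k0, abs_le, le_div_iff₀ hS0, div_le_iff₀ hS0]
      constructor <;> linarith
    · show |e q 1 - (ip t p1 + ip t p3) / T| ≤ 1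
      rw [k1, abs_le, le_div_iff₀ hT0, div_le_iff₀ hT0]
      constructor <;> linarith
  · intro h
    have m0 : |e q 0 - (ip s p1 + ip s p3) / S| ≤ 1 := h 0
    have m1 : |e q 1 - (ip t p1 + ip t p3) / T| ≤ 1 := h 1
    rw [k0, abs_le, le_div_iff₀ hS0, div_le_iff₀ hS0] at m0
    rw [k1, abs_le, le_div_iff₀ hT0, div_le_iff₀ hT0] at m1
    refine ⟨⟨?_, ?_⟩, ?_, ?_⟩
    · linarith [m0.1]
    · linarith [m0.2]
    · linarith [m1.1]
    · linarith [m1.2]

theorem inC_two : InC 2 := by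
  refine inC_of (F := EuclideanSpace ℝ (Fin 2)) (EuclideanSpace.equiv (Fin 2) ℝ) fun Q hQ => ?_
  by_cases hno : ∃ W : Finset (EuclideanSpace ℝ (Fin 2)), W.card ≤ 3 ∧
      ∀ p ∈ Q, ∃ w ∈ W, Pool.Agent.H843R3.Had2.Co Q p w
  · left
    obtain ⟨W, hW, h⟩ := hno
    have h1 := cov_of_ill hQ.1 hQ.2.1 (fun w : W => (w : EuclideanSpace ℝ (Fin 2)))
      fun x hx => by
        obtain ⟨w, hw, h2⟩ := h x hx
        exact ⟨⟨w, hw⟩, h2⟩
    rw [Fintype.card_coe] at h1
    obtain ⟨T, hT, hc⟩ := h1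
    exact ⟨T, hT.trans (hW.trans (by norm_num)), hc⟩
  · right
    exact levi_par hQ.1 hQ.2.1 hQ.2.2 hno

/-- the hypothesis in the language of parallelotopes -/
theorem inC_of_euclid {k : ℕ} (h : ∀ Q : Set (EuclideanSpace ℝ (Fin k)), Convex ℝ Q →
      IsCompact Q → (interior Q).Nonempty → Cov (2 ^ k - 1) Q ∨
        ∃ (p : EuclideanSpace ℝ (Fin k)) (w : Fin k → EuclideanSpace ℝ (Fin k)),
          LinearIndependent ℝ w ∧
            Q = {x | ∃ a : Fin k → ℝ, (∀ i, 0 ≤ a i ∧ a i ≤ 1) ∧ x = p + ∑ i, a i • w i}) :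
    InC k := by
  refine inC_of (EuclideanSpace.equiv (Fin k) ℝ) fun Q hQ => ?_
  rcases h Q hQ.1 hQ.2.1 hQ.2.2 with h1 | ⟨p, w, hw, rfl⟩
  · exact Or.inl h1
  · right
    obtain ⟨e, he⟩ := Pool.Agent.V7H11.NC.exists_coords' w hw
    have hsum : ∀ a : Fin k → ℝ, e (∑ i, a i • w i) = a := by
      intro a
      have h3 := he (∑ i, a i • w i)
      have h4 : ∑ i, (a i - e (∑ i, a i • w i) i) • w i = 0 := by
        simp only [sub_smul, Finset.sum_sub_distrib]
        rw [← h3, sub_self]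
      funext i
      have := Fintype.linearIndependent_iff.1 hw _ h4 i
      linarith
    refine ⟨e.trans (LinearEquiv.smulOfNeZero ℝ (Fin k → ℝ) (2 : ℝ)
      two_ne_zero).toContinuousLinearEquiv, fun i => 2 * e p i + 1, ?_⟩
    ext x
    have hx : ∀ i, (e.trans (LinearEquiv.smulOfNeZero ℝ (Fin k → ℝ) (2 : ℝ)
        two_ne_zero).toContinuousLinearEquiv) x i = 2 * e x i := fun i => rfl
    constructor
    · rintro ⟨a, ha, rfl⟩ i
      rw [hx, map_add, hsum, Pi.add_apply, abs_le]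
      constructor <;> linarith [(ha i).1, (ha i).2]
    · intro h2
      refine ⟨fun i => e x i - e p i, fun i => ?_, ?_⟩
      · have h3 := h2 i
        rw [hx, abs_le] at h3
        constructor <;> linarith [h3.1, h3.2]
      · simp only [sub_smul, Finset.sum_sub_distrib]
        rw [← he, ← he]
        abel

end Pool.Agent.V7H11.NP
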