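import Pool.Agent.V7H11.NP.Prod
import Pool.Agent.V7H11.NP.Low

set_option autoImplicit false

/-!
# Bodies near sums and joins of bodies of small dimension
-/

namespace Pool.Agent.V7H11.NP

open Set Module
open scoped InnerProductSpace
open Pool.Agent.W396.Il

/-- one constant for all dimensions up to `K` -/
theorem uniform (K : ℕ) (H : ∀ k ≤ K, InC k) : ∃ δ : ℝ, 0 < δ ∧ δ ≤ 1 / 100 ∧
    ∀ (F : Type) [NormedAddCommGroup F] [NormedSpace ℝ F] [FiniteDimensional ℝ F],
      finrank ℝ F ≤ K → ∀ Q : Set F, Body Q →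
        CP (2 ^ finrank ℝ F - 1) δ Q ∨ NPar (finrank ℝ F) (1 / 20) Q := by
  have key : ∀ K : ℕ, (∀ k ≤ K, InC k) → ∃ δ : ℝ, 0 < δ ∧ δ ≤ 1 / 100 ∧ ∀ k ≤ K,
      ∀ Q : Set (Fin k → ℝ), Body Q → CP (2 ^ k - 1) δ Q ∨ NPar k (1 / 20) Q := by
    intro K
    induction K with
    | zero =>
      intro H
      obtain ⟨δ, hδ, h⟩ := stable 0 (H 0 le_rfl) (η := 1 / 20) (by norm_num)
      refine ⟨min δ (1 / 100), lt_min hδ (by norm_num), min_le_right _ _, fun k hk Q hQ => ?_⟩
      obtain rfl : k = 0 := by omega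
      exact (h Q hQ).imp_left fun h1 => h1.mono hQ.1 (le_min hδ.le (by norm_num)) (min_le_left _ _)
    | succ K ih =>
      intro H
      obtain ⟨δ₁, hδ₁, hδ₁', h₁⟩ := ih fun k hk => H k (by omega)
      obtain ⟨δ, hδ, h⟩ := stable (K + 1) (H _ le_rfl) (η := 1 / 20) (by norm_num)
      refine ⟨min δ δ₁, lt_min hδ hδ₁, (min_le_right _ _).trans hδ₁', fun k hk Q hQ => ?_⟩
      rcases Nat.lt_or_ge K k with h2 | h2
      · obtain rfl : k = K + 1 := by omega
        exact (h Q hQ).imp_left fun h1 =>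
          h1.mono hQ.1 (le_min hδ.le hδ₁.le) (min_le_left _ _)
      · exact (h₁ k h2 Q hQ).imp_left fun h1 =>
          h1.mono hQ.1 (le_min hδ.le hδ₁.le) (min_le_right _ _)
  obtain ⟨δ, hδ, hδ', h⟩ := key K H
  refine ⟨δ, hδ, hδ', fun F _ _ _ hF Q hQ => ?_⟩
  have e : (Fin (finrank ℝ F) → ℝ) ≃L[ℝ] F :=
    (LinearEquiv.ofFinrankEq (Fin (finrank ℝ F) → ℝ) F (by simp)).toContinuousLinearEquiv
  rcases h _ hF _ (body_transfer e 0 hQ) with h1 | h1
  · exact Or.inl (cp_transfer e 0 h1)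
  · exact Or.inr (npar_transfer e 0 h1)

variable {d r : ℕ}

section Coordinates

variable {V : Fin r → Submodule ℝ (EuclideanSpace ℝ (Fin d))}

/-- the components with respect to a direct decomposition -/
theorem exists_sum_coords (hind : iSupIndep V) (htop : ⨆ i, V i = ⊤) :
    ∃ e : EuclideanSpace ℝ (Fin d) ≃L[ℝ] ∀ i, V i, ∀ v : ∀ i, V i,
      e.symm v = ∑ i, (v i : EuclideanSpace ℝ (Fin d)) := by
  classical
  obtain ⟨φ, hφ⟩ : ∃ φ : (∀ i, V i) →ₗ[ℝ] EuclideanSpace ℝ (Fin d), ∀ v,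
      φ v = ∑ i, (v i : EuclideanSpace ℝ (Fin d)) :=
    ⟨∑ i, (V i).subtype.comp (LinearMap.proj i), fun v => by simp⟩
  have hinj : Function.Injective φ := by
    rw [← LinearMap.ker_eq_bot, LinearMap.ker_eq_bot']
    intro v hv
    rw [hφ] at hv
    have h1 := (iSupIndep_iff_finsetSum_eq_zero_imp_eq_zero V).1 hind Finset.univ
      (fun i => (v i : EuclideanSpace ℝ (Fin d))) (fun i _ => (v i).2) hv
    funext i
    exact Subtype.ext (h1 i (Finset.mem_univ i))
  have hsurj : Function.Surjective φ := by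
    rw [← LinearMap.range_eq_top, eq_top_iff, ← htop]
    refine iSup_le fun i x hx => ?_
    refine ⟨Pi.single i ⟨x, hx⟩, ?_⟩
    rw [hφ, Finset.sum_eq_single i]
    · rw [Pi.single_eq_same]
    · intro j _ hj
      rw [Pi.single_eq_of_ne hj]
      rfl
    · intro h; exact absurd (Finset.mem_univ i) h
  refine ⟨(LinearEquiv.ofBijective φ ⟨hinj, hsurj⟩).symm.toContinuousLinearEquiv, fun v => ?_⟩
  rw [← hφ]
  rfl

theorem sum_finrank (hind : iSupIndep V) (htop : ⨆ i, V i = ⊤) :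
    ∑ i, finrank ℝ (V i) = d := by
  obtain ⟨e, -⟩ := exists_sum_coords hind htop
  have h := e.toLinearEquiv.finrank_eq
  rw [finrank_pi_fintype, finrank_euclideanSpace_fin] at h
  exact h.symm

/-- the orthogonal projections to the spaces as coordinates -/
theorem exists_inner_coords (hind : iSupIndep V) (htop : ⨆ i, V i = ⊤) :
    ∃ e : EuclideanSpace ℝ (Fin d) ≃L[ℝ] ∀ i, V i, ∀ x i, ∀ y ∈ V i,
      ⟪(e x i : EuclideanSpace ℝ (Fin d)), y⟫_ℝ = ⟪x, y⟫_ℝ := by
  classical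
  obtain ⟨φ, hφ⟩ : ∃ φ : EuclideanSpace ℝ (Fin d) →ₗ[ℝ] (∀ i, V i), ∀ x i, ∀ y ∈ V i,
      ⟪(φ x i : EuclideanSpace ℝ (Fin d)), y⟫_ℝ = ⟪x, y⟫_ℝ := by
    refine ⟨LinearMap.pi fun i => ((V i).orthogonalProjectionOnto).toLinearMap, fun x i y hy => ?_⟩
    have h1 := Submodule.inner_orthogonalProjectionOnto_eq_of_mem_left (K := V i) ⟨y, hy⟩ x
    have h2 : ⟪((V i).orthogonalProjectionOnto x : EuclideanSpace ℝ (Fin d)), y⟫_ℝ =
        ⟪(⟨y, hy⟩ : V i), (V i).orthogonalProjectionOnto x⟫_ℝ := by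
      rw [real_inner_comm]; rfl
    show ⟪((V i).orthogonalProjectionOnto x : EuclideanSpace ℝ (Fin d)), y⟫_ℝ = ⟪x, y⟫_ℝ
    rw [h2, h1, real_inner_comm]
  have hinj : Function.Injective φ := by
    rw [← LinearMap.ker_eq_bot, LinearMap.ker_eq_bot']
    intro x hx
    have h1 : ∀ i, V i ≤ (Submodule.span ℝ {x})ᗮ := by
      intro i y hy
      rw [Submodule.mem_orthogonal_singleton_iff_inner_right, ← hφ x i y hy, hx]
      simp
    have h2 : (⊤ : Submodule ℝ (EuclideanSpace ℝ (Fin d))) ≤ (Submodule.span ℝ {x})ᗮ := by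
      rw [← htop]; exact iSup_le h1
    have h3 := h2 (Submodule.mem_top (x := x))
    rw [Submodule.mem_orthogonal_singleton_iff_inner_right, inner_self_eq_zero] at h3
    exact h3
  have hdim : finrank ℝ (EuclideanSpace ℝ (Fin d)) = finrank ℝ (∀ i, V i) := by
    rw [finrank_pi_fintype, finrank_euclideanSpace_fin]
    exact (sum_finrank hind htop).symm
  exact ⟨(LinearMap.linearEquivOfInjective φ hinj hdim).toContinuousLinearEquiv, hφ⟩

end Coordinates

/-- `Q` is a parallelotope, in coordinates -/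
def Box (M : Set (EuclideanSpace ℝ (Fin d))) : Prop :=
  ∃ (L : EuclideanSpace ℝ (Fin d) ≃ₗ[ℝ] (Fin d → ℝ)) (m r : Fin d → ℝ),
    (∀ k, 0 < r k) ∧ M = {x | ∀ k, m k ≤ L x k ∧ L x k ≤ m k + r k}

theorem par_of_box {M : Set (EuclideanSpace ℝ (Fin d))} (h : Box M) :
    ∃ (p : EuclideanSpace ℝ (Fin d)) (w : Fin d → EuclideanSpace ℝ (Fin d)),
      LinearIndependent ℝ w ∧
        M = {x | ∃ a : Fin d → ℝ, (∀ i, 0 ≤ a i ∧ a i ≤ 1) ∧ x = p + ∑ i, a i • w i} := by
  classical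
  obtain ⟨L, m, r, hr, hPL⟩ := h
  refine ⟨L.symm m, fun i => L.symm (Pi.single i (r i)), ?_, ?_⟩
  · rw [Fintype.linearIndependent_iff]
    intro g hg i
    have h4 := congrArg L hg
    rw [map_zero, map_sum] at h4
    have h5 := congrFun h4 i
    simp only [map_smul, LinearEquiv.apply_symm_apply, Finset.sum_apply, Pi.smul_apply,
      smul_eq_mul, Pi.zero_apply] at h5
    rw [Finset.sum_eq_single i (fun j _ hj => by rw [Pi.single_eq_of_ne (Ne.symm hj), mul_zero])
      (fun h => absurd (Finset.mem_univ i) h), Pi.single_eq_same] at h5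
    exact (mul_eq_zero.1 h5).resolve_right (hr i).ne'
  · have hval : ∀ (a : Fin d → ℝ) (k : Fin d),
        L (L.symm m + ∑ i, a i • L.symm (Pi.single i (r i))) k = m k + a k * r k := by
      intro a k
      rw [map_add, map_sum, Pi.add_apply, Finset.sum_apply, LinearEquiv.apply_symm_apply]
      simp only [map_smul, LinearEquiv.apply_symm_apply, Pi.smul_apply, smul_eq_mul]
      rw [Finset.sum_eq_single k (fun j _ hj => by rw [Pi.single_eq_of_ne (Ne.symm hj), mul_zero])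
        (fun h => absurd (Finset.mem_univ k) h), Pi.single_eq_same]
    rw [hPL]
    ext x
    constructor
    · intro hx
      refine ⟨fun k => (L x k - m k) / r k, fun k => ⟨?_, ?_⟩, ?_⟩
      · exact div_nonneg (by linarith [(hx k).1]) (hr k).le
      · rw [div_le_one (hr k)]; linarith [(hx k).2]
      · apply L.injective
        funext k
        rw [hval, div_mul_cancel₀ _ (hr k).ne']
        ring
    · rintro ⟨a, ha, rfl⟩ k
      rw [hval]
      have h4 := ha k
      have h5 := hr k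
      constructor
      · nlinarith [mul_nonneg h4.1 h5.le]
      · nlinarith [mul_le_mul_of_nonneg_right h4.2 h5.le]

/-- the property of the constant `δ` -/
def Good (K : ℕ) (δ : ℝ) : Prop :=
  0 < δ ∧ δ ≤ 1 / 100 ∧
    ∀ (F : Type) [NormedAddCommGroup F] [NormedSpace ℝ F] [FiniteDimensional ℝ F],
      finrank ℝ F ≤ K → ∀ Q : Set F, Body Q →
        CP (2 ^ finrank ℝ F - 1) δ Q ∨ NPar (finrank ℝ F) (1 / 20) Q

/-- **Covering form.** -/
theorem covering {K : ℕ} {δ : ℝ} (hg : Good K δ) {V : Fin r → Submodule ℝ (EuclideanSpace ℝ (Fin d))}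
    (hind : iSupIndep V) (htop : ⨆ i, V i = ⊤) (hK : ∀ i, finrank ℝ (V i) ≤ K)
    {Q : Fin r → Set (EuclideanSpace ℝ (Fin d))} (hQV : ∀ i, Q i ⊆ V i)
    (hQ : ∀ i, Convex ℝ (Q i)) (hQc : ∀ i, IsCompact (Q i))
    {P : Set (EuclideanSpace ℝ (Fin d))}
    (hP : P = {x | ∃ q : Fin r → EuclideanSpace ℝ (Fin d), (∀ i, q i ∈ Q i) ∧ x = ∑ i, q i})
    (hPi : (interior P).Nonempty) {M : Set (EuclideanSpace ℝ (Fin d))} (hM : Convex ℝ M)
    (hMc : IsCompact M) (h1 : P ⊆ M) (c : EuclideanSpace ℝ (Fin d))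
    (h2 : ∀ x ∈ M, ∃ y ∈ P, x = c + (1 + δ) • y) :
    Cov (2 ^ d) M ∧ (Cov (2 ^ d - 1) M ∨ Box M) := by
  classical
  obtain ⟨hδ, hδ', huni⟩ := hg
  obtain ⟨e, he⟩ := exists_sum_coords hind htop
  obtain ⟨R, hR⟩ : ∃ R : ∀ i, Set (V i), ∀ i, R i = (fun v : V i =>
      (v : EuclideanSpace ℝ (Fin d))) ⁻¹' Q i := ⟨_, fun _ => rfl⟩
  have hmem : ∀ x, (∀ i, e x i ∈ R i) ↔ x ∈ P := by
    intro x
    have hx : x = ∑ i, (e x i : EuclideanSpace ℝ (Fin d)) := by
      rw [← he, e.symm_apply_apply]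
    rw [hP]
    constructor
    · intro h
      refine ⟨fun i => (e x i : EuclideanSpace ℝ (Fin d)), fun i => ?_, hx⟩
      have := h i
      rw [hR] at this
      exact this
    · rintro ⟨q, hq, hxq⟩ i
      have h3 : e x = fun i => ⟨q i, hQV i (hq i)⟩ := by
        apply e.symm.injective
        rw [e.symm_apply_apply, he, hxq]
      rw [hR, h3]
      exact hq i
  have hpre : e '' P = Set.pi univ R := by
    ext v
    constructor
    · rintro ⟨x, hx, rfl⟩ i _
      exact (hmem x).2 hx i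
    · intro hv
      refine ⟨e.symm v, (hmem _).1 fun i => ?_, e.apply_symm_apply v⟩
      rw [e.apply_symm_apply]
      exact hv i (mem_univ i)
  have hbody : ∀ i, Body (R i) := by
    intro i
    refine ⟨?_, ?_, ?_⟩
    · rw [hR]
      exact (hQ i).linear_preimage (V i).subtype
    · rw [hR]
      exact (V i).closed_of_finiteDimensional.isClosedEmbedding_subtypeVal.isCompact_preimage
        (hQc i)
    · have h3 : (interior (Set.pi univ R)).Nonempty := by
        have h4 : e '' interior P = interior (e '' P) := e.toHomeomorph.image_interior P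
        rw [← hpre, ← h4]
        exact hPi.image _
      rw [interior_pi_set finite_univ] at h3
      obtain ⟨v, hv⟩ := h3
      exact ⟨v i, hv i (mem_univ i)⟩
  exact prod_main (e := e) (P := R) (k := fun i => finrank ℝ (V i)) (c := c) (δ := δ)
    (η := 1 / 20) finrank_euclideanSpace_fin (sum_finrank hind htop) hM hMc hδ.le (by norm_num)
    (by nlinarith) (fun i => huni (V i) (hK i) (R i) (hbody i))
    (fun x hx => h1 ((hmem x).1 hx)) (fun x hx => by
      obtain ⟨y, hy, hxy⟩ := h2 x hx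
      exact ⟨y, (hmem y).2 hy, hxy⟩)

/-- **Separation form.** -/
theorem separation (hd : 1 ≤ d) {K : ℕ} {δ : ℝ} (hg : Good K δ)
    {V : Fin r → Submodule ℝ (EuclideanSpace ℝ (Fin d))}
    (hind : iSupIndep V) (htop : ⨆ i, V i = ⊤) (hK : ∀ i, finrank ℝ (V i) ≤ K)
    {C : Fin r → Set (EuclideanSpace ℝ (Fin d))} (hCV : ∀ i, C i ⊆ V i)
    (hCc : ∀ i, IsCompact (C i)) (hC0 : 0 ∈ interior (convexHull ℝ (⋃ i, C i)))
    {B : Set (EuclideanSpace ℝ (Fin d))} (hB : Convex ℝ B) (hBc : IsCompact B)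
    {o : EuclideanSpace ℝ (Fin d)} (ho : o ∈ interior B)
    (h1 : ∀ x ∈ B, x - o ∈ convexHull ℝ (⋃ i, C i))
    (h2 : ∀ i, ∀ y ∈ C i, o + (1 + δ)⁻¹ • y ∈ B) :
    Pool.Agent.V7H11.NC.Sep (2 ^ d) B o ∧ (Pool.Agent.V7H11.NC.Sep (2 ^ d - 1) B o ∨
      ∃ (v : Fin d → EuclideanSpace ℝ (Fin d)) (t : Fin d → ℝ), LinearIndependent ℝ v ∧
        (∀ i, 0 < t i) ∧
        B = convexHull ℝ (Set.range (fun i => o + v i) ∪ Set.range (fun i => o - t i • v i))) := by
  classical
  obtain ⟨hδ, hδ', huni⟩ := hg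
  obtain ⟨e, he⟩ := exists_inner_coords hind htop
  obtain ⟨R, hR⟩ : ∃ R : ∀ i, Set (V i), ∀ i, R i = {v : V i | ∀ y ∈ C i,
      ⟪(v : EuclideanSpace ℝ (Fin d)), y⟫_ℝ ≤ 1} := ⟨_, fun _ => rfl⟩
  obtain ⟨P, hP⟩ : ∃ P, P = Pool.Agent.H985.Sep.polar (convexHull ℝ (⋃ i, C i)) 0 := ⟨_, rfl⟩
  have hPC : ∀ x, x ∈ P ↔ ∀ i, ∀ y ∈ C i, ⟪x, y⟫_ℝ ≤ 1 := by
    intro x
    rw [hP]
    constructor
    · intro h i y hy
      have := h y (subset_convexHull ℝ _ (mem_iUnion.2 ⟨i, hy⟩))
      rwa [sub_zero] at this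
    · intro h
      have h3 : convexHull ℝ (⋃ i, C i) ⊆ {y | ⟪x, y⟫_ℝ ≤ 1} := by
        refine convexHull_min (iUnion_subset fun i y hy => h i y hy) ?_
        intro y hy z hz a b ha hb hab
        show ⟪x, a • y + b • z⟫_ℝ ≤ 1
        rw [inner_add_right, real_inner_smul_right, real_inner_smul_right]
        have h4 : ⟪x, y⟫_ℝ ≤ 1 := hy
        have h5 : ⟪x, z⟫_ℝ ≤ 1 := hz
        nlinarith
      intro y hy
      rw [sub_zero]
      exact h3 hy
  have hmem : ∀ x, (∀ i, e x i ∈ R i) ↔ x ∈ P := by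
    intro x
    rw [hPC]
    refine forall_congr' fun i => ?_
    rw [hR]
    show (∀ y ∈ C i, ⟪(e x i : EuclideanSpace ℝ (Fin d)), y⟫_ℝ ≤ 1) ↔ _
    refine forall₂_congr fun y hy => ?_
    rw [he x i y (hCV i hy)]
  have h0R : ∀ i, (0 : V i) ∈ R i := by
    intro i
    rw [hR]
    intro y _
    simp
  have hPcomp : IsCompact P := by
    rw [hP]; exact Pool.Agent.H985.Sep.isCompact_polar hC0
  have hbody : ∀ i, Body (R i) := by
    intro i
    refine ⟨?_, ?_, ?_⟩
    · rw [hR]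
      intro v hv w hw a b ha hb hab y hy
      have h4 := hv y hy
      have h5 := hw y hy
      simp only [Submodule.coe_add, Submodule.coe_smul, inner_add_left, real_inner_smul_left]
      nlinarith
    · have h3 : R i = (fun x => e x i) '' P := by
        ext v
        constructor
        · intro hv
          refine ⟨e.symm (Pi.single i v), (hmem _).1 fun j => ?_, ?_⟩
          · rw [e.apply_symm_apply]
            rcases eq_or_ne j i with rfl | hj
            · rwa [Pi.single_eq_same]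
            · rw [Pi.single_eq_of_ne hj]; exact h0R j
          · simp only
            rw [e.apply_symm_apply, Pi.single_eq_same]
        · rintro ⟨x, hx, rfl⟩
          exact (hmem x).2 hx i
      rw [h3]
      exact hPcomp.image (by fun_prop)
    · obtain ⟨ρ, hρ⟩ := (hCc i).isBounded.exists_norm_le
      have hρ1 : 0 < |ρ| + 1 := by positivity
      refine ⟨0, ?_⟩
      refine interior_maximal (s := R i) (t := Metric.ball 0 (1 / (|ρ| + 1))) ?_
        Metric.isOpen_ball (Metric.mem_ball_self (by positivity))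
      intro v hv
      rw [mem_ball_zero_iff] at hv
      rw [hR]
      intro y hy
      refine (real_inner_le_norm _ _).trans ?_
      have h3 : ‖y‖ ≤ |ρ| + 1 := by linarith [hρ y hy, le_abs_self ρ]
      have h4 : ‖(v : EuclideanSpace ℝ (Fin d))‖ ≤ 1 / (|ρ| + 1) := hv.le
      calc ‖(v : EuclideanSpace ℝ (Fin d))‖ * ‖y‖ ≤ 1 / (|ρ| + 1) * (|ρ| + 1) :=
            mul_le_mul h4 h3 (norm_nonneg _) (by positivity)
        _ = 1 := by field_simp
  obtain ⟨M, hMd⟩ : ∃ M, M = Pool.Agent.H985.Sep.polar B o := ⟨_, rfl⟩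
  have hmain := prod_main (e := e) (P := R) (k := fun i => finrank ℝ (V i)) (c := 0) (δ := δ)
    (η := 1 / 20) (M := M) finrank_euclideanSpace_fin (sum_finrank hind htop)
    (by rw [hMd]; exact Pool.Agent.H985.Sep.convex_polar B o)
    (by rw [hMd]; exact Pool.Agent.H985.Sep.isCompact_polar ho) hδ.le (by norm_num)
    (by nlinarith) (fun i => huni (V i) (hK i) (R i) (hbody i)) (fun x hx => by
      have h3 := (hmem x).1 hx
      rw [hP] at h3
      rw [hMd]
      intro y hy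
      have h4 := h3 (y - o) (h1 y hy)
      rwa [sub_zero] at h4) (fun x hx => by
      refine ⟨(1 + δ)⁻¹ • x, ?_, ?_⟩
      · rw [hmem, hPC]
        intro i y hy
        rw [hMd] at hx
        have h3 := hx _ (h2 i y hy)
        rw [add_sub_cancel_left, real_inner_smul_right] at h3
        rwa [real_inner_smul_left]
      · rw [smul_smul, mul_inv_cancel₀ (by linarith : (1 + δ) ≠ 0), one_smul, zero_add])
  refine ⟨Pool.Agent.V7H11.NC.sep_of_cov ho (by rw [← hMd]; exact hmain.1), ?_⟩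
  rcases hmain.2 with h3 | ⟨L, m, s, hs, hML⟩
  · exact Or.inl (Pool.Agent.V7H11.NC.sep_of_cov ho (by rw [← hMd]; exact h3))
  · right
    refine Pool.Agent.H2R2.Frac.cross_of_polar d hd B hBc hB o ho
      ((Pi.basisFun ℝ (Fin d)).map L.symm).dualBasis m s hs ?_
    have h4 : {x : EuclideanSpace ℝ (Fin d) | ∀ y ∈ B, ⟪x, y - o⟫_ℝ ≤ 1} = M := by
      rw [hMd]; rfl
    rw [h4, hML]
    ext x
    simp

end Pool.Agent.V7H11.NP
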