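import Mathlib

set_option autoImplicit false

/-!
# Limits of convex bodies along an ultrafilter
-/

namespace Pool.Agent.V7H11.NP

open Set Filter Topology Metric

variable {E : Type*} [NormedAddCommGroup E] [NormedSpace ℝ E]

/-- the homothety with centre `p` and ratio `s` -/
def hm (p : E) (s : ℝ) (x : E) : E := p + s • (x - p)

theorem hm_hm (p : E) (s t : ℝ) (x : E) : hm p s (hm p t x) = hm p (s * t) x := by
  simp only [hm, add_sub_cancel_left, smul_smul]

theorem hm_one (p x : E) : hm p 1 x = x := by simp [hm]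

/-- an approximation of `Y` by a set containing a ball gives a homothetic copy containing `Y` -/
theorem exists_hm {X : Set E} (hX : Convex ℝ X) {p : E} {ρ ε : ℝ} (hρ : 0 < ρ) (hε : 0 < ε)
    (hball : closedBall p ρ ⊆ X) {y : E} (h : ∃ x ∈ X, dist y x ≤ ε) :
    ∃ x ∈ X, y = hm p (1 + ε / ρ) x := by
  obtain ⟨x, hx, hd⟩ := h
  have hs : 0 < ε / ρ := div_pos hε hρ
  have hb : p + (ρ / ε) • (y - x) ∈ X := by
    apply hball
    rw [mem_closedBall, dist_eq_norm, add_sub_cancel_left, norm_smul, Real.norm_eq_abs,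
      abs_of_pos (div_pos hρ hε), ← dist_eq_norm]
    calc ρ / ε * dist y x ≤ ρ / ε * ε := mul_le_mul_of_nonneg_left hd (div_pos hρ hε).le
      _ = ρ := div_mul_cancel₀ _ hε.ne'
  have hc := hX hx hb (a := 1 / (1 + ε / ρ)) (b := (ε / ρ) / (1 + ε / ρ))
    (by positivity) (by positivity) (by field_simp)
  refine ⟨_, hc, ?_⟩
  unfold hm
  have h1 : (1 + ε / ρ) ≠ 0 := by positivity
  have e1 : (1 + ε / ρ) * (1 / (1 + ε / ρ)) = 1 := by field_simp
  have e2 : (1 + ε / ρ) * ((ε / ρ) / (1 + ε / ρ)) = ε / ρ := by field_simp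
  have e3 : ε / ρ * (ρ / ε) = 1 := by field_simp
  rw [smul_sub, smul_add, smul_smul, smul_smul, e1, e2, smul_add, smul_smul, e3]
  module

/-- the limit of the sets `Q n` along an ultrafilter -/
def lim (U : Ultrafilter ℕ) (Q : ℕ → Set E) : Set E :=
  {x | ∀ ε : ℝ, 0 < ε → ∀ᶠ n in (U : Filter ℕ), ∃ y ∈ Q n, dist x y < ε}

variable {U : Ultrafilter ℕ} {Q : ℕ → Set E}

theorem convex_lim (hQ : ∀ n, Convex ℝ (Q n)) : Convex ℝ (lim U Q) := by
  intro x hx y hy a b ha hb hab ε hε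
  filter_upwards [hx ε hε, hy ε hε] with n h1 h2
  obtain ⟨x', hx', h1⟩ := h1
  obtain ⟨y', hy', h2⟩ := h2
  refine ⟨_, hQ n hx' hy' ha hb hab, ?_⟩
  have h3 : dist (a • x + b • y) (a • x' + b • y') ≤ a * dist x x' + b * dist y y' := by
    rw [dist_eq_norm, dist_eq_norm, dist_eq_norm]
    have : a • x + b • y - (a • x' + b • y') = a • (x - x') + b • (y - y') := by module
    rw [this]
    refine (norm_add_le _ _).trans ?_
    rw [norm_smul, norm_smul, Real.norm_of_nonneg ha, Real.norm_of_nonneg hb]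
  refine lt_of_le_of_lt h3 ?_
  have h4 : a * dist x x' ≤ a * max (dist x x') (dist y y') :=
    mul_le_mul_of_nonneg_left (le_max_left _ _) ha
  have h5 : b * dist y y' ≤ b * max (dist x x') (dist y y') :=
    mul_le_mul_of_nonneg_left (le_max_right _ _) hb
  have h6 : max (dist x x') (dist y y') < ε := max_lt h1 h2
  calc a * dist x x' + b * dist y y'
      ≤ (a + b) * max (dist x x') (dist y y') := by linarith
    _ < ε := by rw [hab, one_mul]; exact h6

theorem isClosed_lim : IsClosed (lim U Q) := by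
  refine isClosed_of_closure_subset fun x hx ε hε => ?_
  obtain ⟨z, hz, hxz⟩ := Metric.mem_closure_iff.1 hx (ε / 2) (by linarith)
  filter_upwards [hz (ε / 2) (by linarith)] with n h
  obtain ⟨y, hy, h⟩ := h
  exact ⟨y, hy, by linarith [dist_triangle x z y]⟩

theorem subset_lim {X : Set E} (h : ∀ n, X ⊆ Q n) : X ⊆ lim U Q := fun x hx ε hε =>
  Eventually.of_forall fun n => ⟨x, h n hx, by rwa [dist_self]⟩

theorem lim_subset {X : Set E} (hX : IsClosed X) (h : ∀ n, Q n ⊆ X) : lim U Q ⊆ X := by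
  intro x hx
  refine hX.closure_subset_iff.2 (subset_refl _) ?_
  rw [Metric.mem_closure_iff]
  intro ε hε
  obtain ⟨n, y, hy, hd⟩ := (hx ε hε).exists
  exact ⟨y, h n hy, hd⟩

/-- the sets `Q n` are eventually contained in every neighbourhood of the limit -/
theorem eventually_near_lim {X : Set E} (hX : IsCompact X) (h : ∀ n, Q n ⊆ X)
    (hne : ∀ n, (Q n).Nonempty) {ε : ℝ} (hε : 0 < ε) :
    ∀ᶠ n in (U : Filter ℕ), ∀ y ∈ Q n, ∃ x ∈ lim U Q, dist y x ≤ ε := by
  classical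
  by_contra hcon
  rw [← Ultrafilter.eventually_not] at hcon
  obtain ⟨y, hy⟩ : ∃ y : ℕ → E, ∀ n, y n ∈ Q n ∧
      ((¬ ∀ y ∈ Q n, ∃ x ∈ lim U Q, dist y x ≤ ε) → ∀ x ∈ lim U Q, ε < dist (y n) x) := by
    have : ∀ n, ∃ z, z ∈ Q n ∧
        ((¬ ∀ y ∈ Q n, ∃ x ∈ lim U Q, dist y x ≤ ε) → ∀ x ∈ lim U Q, ε < dist z x) := by
      intro n
      by_cases hn : ∀ y ∈ Q n, ∃ x ∈ lim U Q, dist y x ≤ ε
      · obtain ⟨z, hz⟩ := hne n
        exact ⟨z, hz, fun h => absurd hn h⟩
      · have hn' := hn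
        push Not at hn'
        obtain ⟨z, hz, h2⟩ := hn'
        exact ⟨z, hz, fun _ => h2⟩
    choose y hy using this
    exact ⟨y, hy⟩
  have hle : (U.map y : Filter E) ≤ 𝓟 X := by
    rw [le_principal_iff]
    exact Filter.mem_map.2 (Filter.univ_mem' fun n => h n (hy n).1)
  obtain ⟨z, -, hz⟩ := hX.ultrafilter_le_nhds (U.map y) hle
  have hzt : Tendsto y (U : Filter ℕ) (𝓝 z) := hz
  have hzL : z ∈ lim U Q := by
    intro ε' hε'
    have := hzt.eventually (Metric.ball_mem_nhds z hε')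
    filter_upwards [this] with n hn
    refine ⟨y n, (hy n).1, ?_⟩
    rw [dist_comm]; exact hn
  have h1 := hzt.eventually (Metric.ball_mem_nhds z hε)
  obtain ⟨n, hn1, hn2⟩ := (hcon.and h1).exists
  have h3 := (hy n).2 hn1 z hzL
  have h4 : dist (y n) z < ε := hn2
  linarith

/-- the limit is eventually contained in every neighbourhood of `Q n` -/
theorem eventually_lim_near {X : Set E} (hX : IsCompact X) (h : ∀ n, Q n ⊆ X)
    {ε : ℝ} (hε : 0 < ε) :
    ∀ᶠ n in (U : Filter ℕ), ∀ x ∈ lim U Q, ∃ y ∈ Q n, dist x y ≤ ε := by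
  have hc : IsCompact (lim U Q) := hX.of_isClosed_subset isClosed_lim (lim_subset hX.isClosed h)
  obtain ⟨t, ht, hcov⟩ := hc.elim_nhds_subcover (fun x => ball x (ε / 2))
    (fun x _ => ball_mem_nhds x (by linarith))
  have h1 : ∀ᶠ n in (U : Filter ℕ), ∀ z ∈ t, ∃ y ∈ Q n, dist z y < ε / 2 := by
    rw [Filter.eventually_all_finset]
    exact fun z hz => ht z hz (ε / 2) (by linarith)
  filter_upwards [h1] with n hn x hx
  obtain ⟨z, hz, hxz⟩ := mem_iUnion₂.1 (hcov hx)
  obtain ⟨y, hy, hd⟩ := hn z hz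
  have h2 : dist x z < ε / 2 := hxz
  exact ⟨y, hy, by linarith [dist_triangle x z y]⟩

end Pool.Agent.V7H11.NP
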