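import Pool.Agent.V7H11.NP.Limit

set_option autoImplicit false

/-!
# Robust coverings and bodies near a parallelotope; normalisation of a convex body
-/

namespace Pool.Agent.V7H11.NP

open Set Filter Topology Metric

variable {F G : Type*} [NormedAddCommGroup F] [NormedSpace ℝ F]
  [NormedAddCommGroup G] [NormedSpace ℝ G]

/-- `(1 + δ) Q` is covered by at most `N` translates of the interior of `Q` -/
def CP (N : ℕ) (δ : ℝ) (Q : Set F) : Prop :=
  ∃ T : Finset F, T.card ≤ N ∧ ∀ x ∈ Q, ∃ t ∈ T, ∃ y ∈ interior Q, (1 + δ) • x = t + y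

/-- `Q` lies between a parallelotope and its homothetic copy with ratio `1 + η` -/
def NPar (k : ℕ) (η : ℝ) (Q : Set F) : Prop :=
  ∃ (e : F ≃L[ℝ] (Fin k → ℝ)) (c : Fin k → ℝ), (∀ x, (∀ i, |e x i - c i| ≤ 1) → x ∈ Q) ∧
    ∀ x ∈ Q, ∀ i, |e x i - c i| ≤ 1 + η

/-- the affine isomorphism -/
noncomputable def aff (g : G ≃L[ℝ] F) (x₀ : F) : G ≃ₜ F :=
  g.toHomeomorph.trans (Homeomorph.addLeft x₀)

theorem aff_apply (g : G ≃L[ℝ] F) (x₀ : F) (y : G) : aff g x₀ y = x₀ + g y := rfl

theorem cp_transfer (g : G ≃L[ℝ] F) (x₀ : F) {N : ℕ} {δ : ℝ} {Q : Set F}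
    (h : CP N δ (aff g x₀ ⁻¹' Q)) : CP N δ Q := by
  classical
  obtain ⟨T, hT, hc⟩ := h
  refine ⟨T.image (fun t => δ • x₀ + g t), Finset.card_image_le.trans hT, fun x hx => ?_⟩
  have hy : g.symm (x - x₀) ∈ aff g x₀ ⁻¹' Q := by
    show aff g x₀ (g.symm (x - x₀)) ∈ Q
    rw [aff_apply, g.apply_symm_apply, add_sub_cancel]
    exact hx
  obtain ⟨t, ht, y, hyi, he⟩ := hc _ hy
  rw [← (aff g x₀).preimage_interior] at hyi
  refine ⟨_, Finset.mem_image_of_mem _ ht, aff g x₀ y, hyi, ?_⟩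
  have h1 := congrArg g he
  rw [map_smul, g.apply_symm_apply, map_add] at h1
  rw [aff_apply]
  have h2 : (1 + δ) • x = (1 + δ) • (x - x₀) + (1 + δ) • x₀ := by module
  rw [h2, h1]
  module

theorem npar_transfer (g : G ≃L[ℝ] F) (x₀ : F) {k : ℕ} {η : ℝ} {Q : Set F}
    (h : NPar k η (aff g x₀ ⁻¹' Q)) : NPar k η Q := by
  obtain ⟨e, c, h1, h2⟩ := h
  have hco : ∀ x i, (g.symm.trans e) x i - (c + e (g.symm x₀)) i = e (g.symm (x - x₀)) i - c i := by
    intro x i
    rw [map_sub, map_sub]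
    simp only [ContinuousLinearEquiv.trans_apply, Pi.add_apply, Pi.sub_apply]
    ring
  have hmem : ∀ x, x ∈ Q ↔ g.symm (x - x₀) ∈ aff g x₀ ⁻¹' Q := by
    intro x
    show x ∈ Q ↔ aff g x₀ (g.symm (x - x₀)) ∈ Q
    rw [aff_apply, g.apply_symm_apply, add_sub_cancel]
  refine ⟨g.symm.trans e, c + e (g.symm x₀), fun x hx => ?_, fun x hx i => ?_⟩
  · rw [hmem]
    exact h1 _ fun i => by rw [← hco]; exact hx i
  · rw [hco]
    exact h2 _ ((hmem x).1 hx) i

/-- convex body -/
def Body (Q : Set F) : Prop := Convex ℝ Q ∧ IsCompact Q ∧ (interior Q).Nonempty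

theorem body_transfer (g : G ≃L[ℝ] F) (x₀ : F) {Q : Set F} (h : Body Q) :
    Body (aff g x₀ ⁻¹' Q) := by
  refine ⟨?_, (aff g x₀).isCompact_preimage.2 h.2.1, ?_⟩
  · intro x hx y hy a b ha hb hab
    show aff g x₀ (a • x + b • y) ∈ Q
    have : aff g x₀ (a • x + b • y) = a • aff g x₀ x + b • aff g x₀ y := by
      simp only [aff_apply, map_add, map_smul, smul_add]
      have : x₀ = a • x₀ + b • x₀ := by rw [← add_smul, hab, one_smul]
      conv_lhs => rw [this]
      abel
    rw [this]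
    exact h.1 hx hy ha hb hab
  · obtain ⟨p, hp⟩ := h.2.2
    refine ⟨(aff g x₀).symm p, ?_⟩
    rw [← (aff g x₀).preimage_interior]
    show aff g x₀ ((aff g x₀).symm p) ∈ interior Q
    rwa [Homeomorph.apply_symm_apply]

theorem CP.mono_card {N N' : ℕ} {δ : ℝ} {Q : Set F} (h : CP N δ Q) (hN : N ≤ N') : CP N' δ Q := by
  obtain ⟨T, hT, h⟩ := h
  exact ⟨T, hT.trans hN, h⟩

theorem CP.mono {N : ℕ} {δ δ' : ℝ} {Q : Set F} (hQ : Convex ℝ Q) (h : CP N δ Q)
    (h0 : 0 ≤ δ') (hδ : δ' ≤ δ) : CP N δ' Q := by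
  classical
  by_cases hne : (interior Q).Nonempty
  swap
  · obtain ⟨T, hT, h⟩ := h
    refine ⟨T, hT, fun x hx => ?_⟩
    obtain ⟨t, _, y, hy, _⟩ := h x hx
    exact absurd ⟨y, hy⟩ hne
  obtain ⟨p, hp⟩ := hne
  obtain ⟨T, hT, h⟩ := h
  obtain ⟨s, hs⟩ : ∃ s : ℝ, s = (1 + δ') / (1 + δ) := ⟨_, rfl⟩
  have hd : 0 < 1 + δ := by linarith
  have hs0 : 0 < s := by rw [hs]; exact div_pos (by linarith) hd
  have hs1 : s ≤ 1 := by rw [hs, div_le_one hd]; linarith
  have hsd : s * (1 + δ) = 1 + δ' := by rw [hs]; exact div_mul_cancel₀ _ hd.ne'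
  -- cover `(1+δ') Q` by shrinking the covering of `(1+δ) Q` with ratio `s`
  refine ⟨T.image (fun t => s • t - (1 - s) • p), Finset.card_image_le.trans hT,
    fun x hx => ?_⟩
  obtain ⟨t, ht, y, hy, he⟩ := h x hx
  refine ⟨_, Finset.mem_image_of_mem _ ht, s • y + (1 - s) • p, ?_, ?_⟩
  · rcases hs1.eq_or_lt with h1 | h1
    · rw [h1]; simpa using hy
    · exact hQ.interior hy hp hs0.le (by linarith) (by ring)
  · have h1 : (1 + δ') • x = s • ((1 + δ) • x) := by rw [smul_smul, hsd]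
    rw [h1, he, smul_add]
    abel

section Normal

variable {k : ℕ}

/-- every convex body in coordinates for which it contains `0` and the unit vectors and is
contained in the cube `[-1, 1]^k` -/
theorem exists_normal {Q : Set (Fin k → ℝ)} (hQ : Body Q) :
    ∃ (g : (Fin k → ℝ) ≃L[ℝ] (Fin k → ℝ)) (x₀ : Fin k → ℝ),
      (0 : Fin k → ℝ) ∈ aff g x₀ ⁻¹' Q ∧ (∀ i, Pi.single i (1 : ℝ) ∈ aff g x₀ ⁻¹' Q) ∧
      ∀ y ∈ aff g x₀ ⁻¹' Q, ∀ i, |y i| ≤ 1 := by
  classical
  obtain ⟨hconv, hcomp, p, hp⟩ := hQ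
  -- the matrix with the columns `x j - p`
  obtain ⟨A, hA⟩ : ∃ A : (Fin k → Fin k → ℝ) → Matrix (Fin k) (Fin k) ℝ,
      ∀ x, A x = Matrix.of fun i j => x j i - p i := ⟨_, fun _ => rfl⟩
  have hcont : Continuous fun x : Fin k → Fin k → ℝ => |(A x).det| := by
    refine continuous_abs.comp (Continuous.matrix_det ?_)
    have : A = fun x => Matrix.of fun i j => x j i - p i := funext hA
    rw [this]
    refine continuous_matrix fun i j => ?_
    simp only [Matrix.of_apply]
    fun_prop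
  have hK : IsCompact (Set.pi univ fun _ : Fin k => Q) := isCompact_univ_pi fun _ => hcomp
  obtain ⟨x, hx, hmax⟩ := hK.exists_isMaxOn ⟨fun _ => p, fun _ _ => interior_subset hp⟩
    hcont.continuousOn
  have hdet : (A x).det ≠ 0 := by
    obtain ⟨r, hr, hb⟩ := Metric.nhds_basis_closedBall.mem_iff.1 (isOpen_interior.mem_nhds hp)
    have hz : (fun j : Fin k => p + Pi.single j r) ∈ Set.pi univ fun _ : Fin k => Q := by
      intro j _
      refine interior_subset (hb ?_)
      rw [mem_closedBall, dist_eq_norm, add_sub_cancel_left, pi_norm_le_iff_of_nonneg hr.le]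
      intro i
      rcases eq_or_ne i j with rfl | h
      · rw [Pi.single_eq_same, Real.norm_of_nonneg hr.le]
      · rw [Pi.single_eq_of_ne h, norm_zero]; exact hr.le
    have h1 : |(A fun j => p + Pi.single j r).det| ≤ |(A x).det| := hmax hz
    have h2 : A (fun j => p + Pi.single j r) = Matrix.diagonal fun _ => r := by
      rw [hA]
      ext i j
      simp only [Matrix.of_apply, Pi.add_apply, add_sub_cancel_left, Matrix.diagonal_apply]
      rcases eq_or_ne i j with rfl | h
      · rw [Pi.single_eq_same, if_pos rfl]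
      · rw [Pi.single_eq_of_ne h, if_neg h]
    rw [h2, Matrix.det_diagonal] at h1
    intro h3
    rw [h3, abs_zero, Finset.prod_const] at h1
    have : 0 < |r ^ (Finset.univ : Finset (Fin k)).card| := abs_pos.2 (pow_pos hr _).ne'
    linarith
  obtain ⟨g, hg⟩ : ∃ g : (Fin k → ℝ) ≃L[ℝ] (Fin k → ℝ), ∀ y, g y = (A x).mulVec y := by
    have hu : IsUnit (A x).det := isUnit_iff_ne_zero.2 hdet
    exact ⟨((A x).toLinearEquiv' ((A x).invertibleOfIsUnitDet hu)).toContinuousLinearEquiv,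
      fun y => rfl⟩
  refine ⟨g, p, ?_, fun i => ?_, fun y hy i => ?_⟩
  · show aff g p 0 ∈ Q
    rw [aff_apply, map_zero, add_zero]
    exact interior_subset hp
  · show aff g p (Pi.single i 1) ∈ Q
    have : aff g p (Pi.single i 1) = x i := by
      rw [aff_apply, hg, Matrix.mulVec_single_one, hA]
      funext l
      simp
    rw [this]
    exact hx i (mem_univ _)
  · have hy' : p + g y ∈ Q := hy
    have hz : Function.update x i (p + g y) ∈ Set.pi univ fun _ : Fin k => Q := by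
      intro j _
      rcases eq_or_ne j i with rfl | h
      · rw [Function.update_self]; exact hy'
      · rw [Function.update_of_ne h]; exact hx j (mem_univ _)
    have h1 : |(A (Function.update x i (p + g y))).det| ≤ |(A x).det| := hmax hz
    have h2 : A (Function.update x i (p + g y)) = (A x).updateCol i (g y) := by
      rw [hA]
      ext l j
      rw [Matrix.updateCol_apply]
      simp only [Matrix.of_apply]
      rcases eq_or_ne j i with rfl | h
      · rw [Function.update_self, if_pos rfl, Pi.add_apply, add_sub_cancel_left]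
      · rw [Function.update_of_ne h, if_neg h, hA, Matrix.of_apply]
    have h3 : ((A x).updateCol i (g y)).det = (A x).det * y i := by
      rw [← Matrix.cramer_apply, hg, Matrix.cramer_eq_adjugate_mulVec, Matrix.mulVec_mulVec,
        Matrix.adjugate_mul, Matrix.smul_mulVec, Matrix.one_mulVec, Pi.smul_apply, smul_eq_mul]
    rw [h2, h3, abs_mul] at h1
    have h4 : 0 < |(A x).det| := abs_pos.2 hdet
    by_contra hc
    push Not at hc
    nlinarith

end Normal

end Pool.Agent.V7H11.NP
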