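import Pool.Agent.V7H11.NP.Stable
import Pool.Agent.V7H11.NC.Final

set_option autoImplicit false

/-!
# Bodies near products
-/

namespace Pool.Agent.V7H11.NP

open Set Module
open Pool.Agent.W396.Il
open Pool.Agent.V7H11.NC (sg sg_mul abs_sg)

section One

variable {F : Type*} [NormedAddCommGroup F] [NormedSpace ℝ F] {k : ℕ} {δ η : ℝ}

/-- a body near a parallelotope is robustly covered by `2 ^ k` translates -/
theorem NPar.cp {Q : Set F} (h : NPar k η Q) (hδ : 0 ≤ δ) (hη : 0 ≤ η)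
    (hlt : (1 + δ) * (1 + η) < 2) : CP (2 ^ k) δ Q := by
  classical
  obtain ⟨e, c, h1, h2⟩ := h
  obtain ⟨τ, hτ⟩ : ∃ τ : ℝ, τ = (1 + δ) * (1 + η) / 2 := ⟨_, rfl⟩
  have hτ1 : τ < 1 := by rw [hτ]; linarith
  have hτ0 : 0 < τ := by rw [hτ]; positivity
  refine ⟨Finset.univ.image fun σ : Fin k → Bool =>
    e.symm (δ • c + τ • fun i => sg (σ i)), Finset.card_image_le.trans (by simp),
    fun x hx => ?_⟩
  obtain ⟨σ, hσ⟩ : ∃ σ : Fin k → Bool, ∀ i, 0 ≤ sg (σ i) * (e x i - c i) := by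
    refine ⟨fun i => decide (0 ≤ e x i - c i), fun i => ?_⟩
    by_cases h : 0 ≤ e x i - c i
    · simp [h, sg]
    · simp only [h, decide_false, sg, cond_false]
      linarith
  obtain ⟨y, hy⟩ : ∃ y : F, y = (1 + δ) • x - e.symm (δ • c + τ • fun i => sg (σ i)) := ⟨_, rfl⟩
  refine ⟨_, Finset.mem_image_of_mem _ (Finset.mem_univ σ), y, ?_, by rw [hy]; abel⟩
  have hopen : IsOpen {z : F | ∀ i, |e z i - c i| < 1} := by
    simp only [Set.ofPred_forall]
    refine isOpen_iInter_of_finite fun i => ?_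
    exact isOpen_lt (by fun_prop) continuous_const
  refine interior_maximal (fun z hz => h1 z fun i => (hz i).le) hopen ?_
  intro i
  have hval : e y i - c i = (1 + δ) * (e x i - c i) - τ * sg (σ i) := by
    rw [hy, map_sub, map_smul, e.apply_symm_apply]
    simp only [Pi.sub_apply, Pi.smul_apply, Pi.add_apply, smul_eq_mul]
    ring
  rw [hval]
  have h3 := h2 x hx i
  have h4 := hσ i
  have h5 : (1 + δ) * |e x i - c i| ≤ 2 * τ := by
    rw [hτ]
    calc (1 + δ) * |e x i - c i| ≤ (1 + δ) * (1 + η) :=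
          mul_le_mul_of_nonneg_left h3 (by linarith)
      _ = 2 * ((1 + δ) * (1 + η) / 2) := by ring
  have h6 : |e x i - c i| = sg (σ i) * (e x i - c i) := by
    rw [← abs_of_nonneg h4, abs_mul, abs_sg, one_mul]
  rw [h6] at h5
  have h7 : (1 + δ) * (e x i - c i) - τ * sg (σ i) =
      sg (σ i) * ((1 + δ) * (sg (σ i) * (e x i - c i)) - τ) := by
    have := sg_mul (σ i)
    linear_combination (-(1 + δ) * (e x i - c i)) * this
  rw [h7, abs_mul, abs_sg, one_mul, abs_lt]
  have h8 : 0 ≤ (1 + δ) * (sg (σ i) * (e x i - c i)) := mul_nonneg (by linarith) h4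
  constructor <;> linarith

end One

section Product

variable {ι : Type*} [Fintype ι] {F : ι → Type*} [∀ i, NormedAddCommGroup (F i)]
  [∀ i, NormedSpace ℝ (F i)] {E : Type*} [NormedAddCommGroup E] [NormedSpace ℝ E]
  {e : E ≃L[ℝ] ∀ i, F i} {P : ∀ i, Set (F i)} {M : Set E} {c : E} {δ η : ℝ}

theorem cov_prod {N : ι → ℕ} (hP : ∀ i, CP (N i) δ (P i))
    (h1 : ∀ x, (∀ i, e x i ∈ P i) → x ∈ M)
    (h2 : ∀ x ∈ M, ∃ y, (∀ i, e y i ∈ P i) ∧ x = c + (1 + δ) • y) : Cov (∏ i, N i) M := by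
  classical
  choose T hT hc using hP
  refine ⟨(Fintype.piFinset T).image fun t => c + e.symm t, Finset.card_image_le.trans ?_,
    fun x hx => ?_⟩
  · rw [Fintype.card_piFinset]
    exact Finset.prod_le_prod' fun i _ => hT i
  · obtain ⟨y, hy, hxy⟩ := h2 x hx
    choose t ht z hz htz using fun i => hc i (e y i) (hy i)
    have hopen : IsOpen {x : E | ∀ i, e x i ∈ interior (P i)} := by
      simp only [Set.ofPred_forall]
      refine isOpen_iInter_of_finite fun i => ?_
      exact isOpen_interior.preimage (by fun_prop : Continuous fun x => e x i)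
    have hzM : e.symm z ∈ interior M := by
      refine interior_maximal (show {x : E | ∀ i, e x i ∈ interior (P i)} ⊆ M from
        fun x hx => h1 x fun i => interior_subset (hx i)) hopen ?_
      intro i
      rw [e.apply_symm_apply]
      exact hz i
    refine mem_iUnion₂.2 ⟨c + e.symm t, Finset.mem_image_of_mem _
      (Fintype.mem_piFinset.2 ht), e.symm z, hzM, ?_⟩
    have h3 : (1 + δ) • e y = t + z := funext htz
    have h4 : (1 + δ) • y = e.symm (t + z) := by
      rw [← h3, map_smul, e.symm_apply_apply]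
    simp only
    rw [hxy, h4, map_add]
    abel

variable {k : ι → ℕ} {d : ℕ}

/-- all factors near parallelotopes: the product is near a parallelotope -/
theorem npar_prod (hd : finrank ℝ E = d) (hk : ∑ i, k i = d) (h : ∀ i, NPar (k i) η (P i)) :
    ∃ (G : E ≃L[ℝ] (Fin d → ℝ)) (C : Fin d → ℝ),
      (∀ x, (∀ a, |G x a - C a| ≤ 1) → ∀ i, e x i ∈ P i) ∧
      ∀ x, (∀ i, e x i ∈ P i) → ∀ a, |G x a - C a| ≤ 1 + η := by
  classical
  choose f b h1 h2 using h
  obtain ⟨s⟩ : Nonempty (Fin d ≃ Σ i, Fin (k i)) := by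
    refine ⟨Fintype.equivOfCardEq ?_⟩
    rw [Fintype.card_fin, Fintype.card_sigma]
    simp [hk]
  have : FiniteDimensional ℝ E := by
    have : ∀ i, FiniteDimensional ℝ (F i) := fun i =>
      (f i).toLinearEquiv.symm.finiteDimensional
    exact e.toLinearEquiv.symm.finiteDimensional
  obtain ⟨g, hg⟩ : ∃ g : E →ₗ[ℝ] (Fin d → ℝ), ∀ x a, g x a = f (s a).1 (e x (s a).1) (s a).2 := by
    refine ⟨LinearMap.pi fun a => (LinearMap.proj (s a).2).comp
      (((f (s a).1).toLinearEquiv.toLinearMap.comp (LinearMap.proj (s a).1)).comp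
        e.toLinearEquiv.toLinearMap), fun x a => rfl⟩
  have hinj : Function.Injective g := by
    rw [← LinearMap.ker_eq_bot, LinearMap.ker_eq_bot']
    intro x hx
    have h3 : e x = 0 := by
      funext i
      have h4 : f i (e x i) = 0 := by
        funext j
        have h5 := congrFun hx (s.symm ⟨i, j⟩)
        rw [hg, Equiv.apply_symm_apply] at h5
        exact h5
      exact (f i).map_eq_zero_iff.1 h4
    exact e.map_eq_zero_iff.1 h3
  obtain ⟨G, hG⟩ : ∃ G : E ≃L[ℝ] (Fin d → ℝ), ∀ x a, G x a = f (s a).1 (e x (s a).1) (s a).2 :=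
    ⟨(LinearMap.linearEquivOfInjective g hinj (by simp [hd])).toContinuousLinearEquiv,
      fun x a => hg x a⟩
  refine ⟨G, fun a => b (s a).1 (s a).2, fun x hx i => ?_, fun x hx a => ?_⟩
  · refine h1 i _ fun j => ?_
    have h3 := hx (s.symm ⟨i, j⟩)
    simp only [hG] at h3
    rw [Equiv.apply_symm_apply] at h3
    exact h3
  · rw [hG]
    exact h2 _ _ (hx _) _

/-- **Main theorem in coordinates.** -/
theorem prod_main (hd : finrank ℝ E = d) (hk : ∑ i, k i = d) (hM : Convex ℝ M)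
    (hMc : IsCompact M) (hδ : 0 ≤ δ) (hη : 0 ≤ η) (hsmall : (1 + δ) * (1 + η) ≤ 13 / 12)
    (hP : ∀ i, CP (2 ^ k i - 1) δ (P i) ∨ NPar (k i) η (P i))
    (h1 : ∀ x, (∀ i, e x i ∈ P i) → x ∈ M)
    (h2 : ∀ x ∈ M, ∃ y, (∀ i, e y i ∈ P i) ∧ x = c + (1 + δ) • y) :
    Cov (2 ^ d) M ∧ (Cov (2 ^ d - 1) M ∨ ∃ (L : E ≃ₗ[ℝ] (Fin d → ℝ)) (m r : Fin d → ℝ),
      (∀ k, 0 < r k) ∧ M = {x | ∀ k, m k ≤ L x k ∧ L x k ≤ m k + r k}) := by
  classical
  have hcov_mono : ∀ {N N' : ℕ}, N ≤ N' → Cov N M → Cov N' M := by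
    rintro N N' hNN ⟨T, hT, hc⟩
    exact ⟨T, hT.trans hNN, hc⟩
  by_cases hex : ∃ i, CP (2 ^ k i - 1) δ (P i)
  · obtain ⟨i₀, hi₀⟩ := hex
    have hall : ∀ i, CP (2 ^ k i) δ (P i) := by
      intro i
      rcases hP i with h | h
      · exact h.mono_card (Nat.sub_le _ _)
      · exact h.cp hδ hη (by linarith)
    have hN : ∀ i, CP (if i = i₀ then 2 ^ k i₀ - 1 else 2 ^ k i) δ (P i) := by
      intro i
      split_ifs with h
      · rw [h]; exact hi₀
      · exact hall i
    have h3 := cov_prod hN h1 h2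
    have h4 : ∏ i, (if i = i₀ then 2 ^ k i₀ - 1 else 2 ^ k i) ≤ 2 ^ d - 1 := by
      have h5 : ∏ i, 2 ^ k i = 2 ^ d := by rw [Finset.prod_pow_eq_pow_sum, hk]
      rw [← Finset.mul_prod_erase _ _ (Finset.mem_univ i₀)] at h5 ⊢
      rw [if_pos rfl]
      have h6 : ∏ i ∈ Finset.univ.erase i₀, (if i = i₀ then 2 ^ k i₀ - 1 else 2 ^ k i) =
          ∏ i ∈ Finset.univ.erase i₀, 2 ^ k i :=
        Finset.prod_congr rfl fun i hi => if_neg (Finset.ne_of_mem_erase hi)
      rw [h6, ← h5, Nat.sub_mul, one_mul]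
      refine Nat.sub_le_sub_left ?_ _
      exact Finset.one_le_prod' fun i _ => Nat.one_le_two_pow
    have h5 := hcov_mono h4 h3
    exact ⟨hcov_mono (Nat.sub_le _ _) h5, Or.inl h5⟩
  · push Not at hex
    have hall : ∀ i, NPar (k i) η (P i) := fun i => (hP i).resolve_left (hex i)
    obtain ⟨G, C, h3, h4⟩ := npar_prod (e := e) hd hk hall
    obtain ⟨l, hl⟩ : ∃ l : ℝ, l = (1 + δ) * (1 + η) := ⟨_, rfl⟩
    have hl1 : 1 ≤ l := by rw [hl]; nlinarith
    rw [← hl] at hsmall
    have hval : ∀ x ∈ M, ∀ a, |G x a - C a - (G c a + δ * C a)| ≤ l := by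
      intro x hx a
      obtain ⟨y, hy, rfl⟩ := h2 x hx
      have h5 := h4 y hy a
      have h6 : G (c + (1 + δ) • y) a - C a - (G c a + δ * C a) = (1 + δ) * (G y a - C a) := by
        rw [map_add, map_smul, Pi.add_apply, Pi.smul_apply, smul_eq_mul]
        ring
      rw [h6, abs_mul, abs_of_nonneg (by linarith : 0 ≤ 1 + δ), hl]
      exact mul_le_mul_of_nonneg_left h5 (by linarith)
    have hcorner : ∀ (a : Fin d) (s : ℝ), |s| ≤ 1 →
        G.symm (C + Pi.single a s) ∈ M := by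
      intro a s hs
      refine h1 _ (h3 _ fun b => ?_)
      rw [G.apply_symm_apply, Pi.add_apply, add_sub_cancel_left]
      rcases eq_or_ne b a with rfl | hb
      · rwa [Pi.single_eq_same]
      · rw [Pi.single_eq_of_ne hb, abs_zero]; exact zero_le_one
    have hs : ∀ a, |G c a + δ * C a| ≤ l - 1 := by
      intro a
      have h5 := hval _ (hcorner a 1 (by simp)) a
      have h6 := hval _ (hcorner a (-1) (by simp)) a
      rw [G.apply_symm_apply, Pi.add_apply, Pi.single_eq_same, add_sub_cancel_left, abs_le] at h5 h6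
      rw [abs_le]
      constructor <;> linarith [h5.1, h5.2, h6.1, h6.2]
    have hnear := Pool.Agent.V7H11.NC.near_transfer G C hM hMc
      (δ := 2 * (l - 1)) (by linarith) (fun x hx => h1 x (h3 x hx)) (fun x hx a => by
        have h5 := hval x hx a
        have h6 := hs a
        rw [abs_le] at h5 h6 ⊢
        constructor <;> linarith [h5.1, h5.2, h6.1, h6.2])
    refine ⟨Pool.Agent.V7H11.NC.cov_transfer G C (hnear.cov (by linarith)), ?_⟩
    rcases hnear.main (by linarith) with h5 | h5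
    · exact Or.inl (Pool.Agent.V7H11.NC.cov_transfer G C h5)
    · exact Or.inr (Pool.Agent.V7H11.NC.par_transfer G C h5)

end Product

end Pool.Agent.V7H11.NP
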