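import Pool.Agent.V7H11.NP.Norm
import Pool.Agent.W396.Il.Basic

set_option autoImplicit false

/-!
# Stability: a body is robustly covered or close to a parallelotope
-/

namespace Pool.Agent.V7H11.NP

open Set Filter Topology Metric
open Pool.Agent.W396.Il

variable {F : Type*} [NormedAddCommGroup F] [NormedSpace ℝ F]

theorem hm_int {L : Set F} (hL : Convex ℝ L) {p : F} (hp : p ∈ interior L) {σ : ℝ} (h0 : 0 ≤ σ)
    (h1 : σ ≤ 1) {y : F} (hy : y ∈ interior L) : hm p σ y ∈ interior L := by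
  have h := hL.interior hy hp h0 (by linarith : (0 : ℝ) ≤ 1 - σ) (by ring)
  have : hm p σ y = σ • y + (1 - σ) • p := by unfold hm; module
  rwa [this]

theorem continuous_hm (p : F) (s : ℝ) : Continuous (hm p s) := by
  unfold hm; fun_prop

/-- a covering by translates of the interior is robust -/
theorem exists_ratio {L : Set F} (hL : Convex ℝ L) (hLc : IsCompact L) {p : F}
    (hp : p ∈ interior L) {T : Finset F} (hT : L ⊆ ⋃ t ∈ T, (fun x => t + x) '' interior L) :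
    ∃ r : ℝ, 1 < r ∧ ∀ x ∈ L, ∃ t ∈ T, hm p r (x - t) ∈ interior L := by
  obtain ⟨V, hV⟩ : ∃ V : ℕ → Set F, ∀ n, V n = {x | ∃ t ∈ T,
      hm p (1 + 1 / ((n : ℝ) + 1)) (x - t) ∈ interior L} := ⟨_, fun _ => rfl⟩
  have hopen : ∀ n, IsOpen (V n) := by
    intro n
    have : V n = ⋃ t ∈ T, (fun x => hm p (1 + 1 / ((n : ℝ) + 1)) (x - t)) ⁻¹' interior L := by
      rw [hV]; ext x; simp
    rw [this]
    refine isOpen_biUnion fun t _ => isOpen_interior.preimage ?_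
    exact (continuous_hm _ _).comp (by fun_prop)
  have hmono : Monotone V := by
    intro m n hmn x hx
    rw [hV] at hx ⊢
    obtain ⟨t, ht, h⟩ := hx
    refine ⟨t, ht, ?_⟩
    have hm0 : (0 : ℝ) < (m : ℝ) + 1 := by positivity
    have hn0 : (0 : ℝ) < (n : ℝ) + 1 := by positivity
    have hmn' : (m : ℝ) ≤ n := by exact_mod_cast hmn
    have h1 : (1 : ℝ) / ((n : ℝ) + 1) ≤ 1 / ((m : ℝ) + 1) :=
      one_div_le_one_div_of_le hm0 (by linarith)
    have hpm : 0 < 1 + 1 / ((m : ℝ) + 1) := by positivity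
    have hpn : 0 < 1 + 1 / ((n : ℝ) + 1) := by positivity
    have h2 : hm p (1 + 1 / ((n : ℝ) + 1)) (x - t) =
        hm p ((1 + 1 / ((n : ℝ) + 1)) / (1 + 1 / ((m : ℝ) + 1)))
          (hm p (1 + 1 / ((m : ℝ) + 1)) (x - t)) := by
      rw [hm_hm, div_mul_cancel₀ _ hpm.ne']
    rw [h2]
    refine hm_int hL hp (div_pos hpn hpm).le ?_ h
    rw [div_le_one hpm]; linarith
  have hcov : L ⊆ ⋃ n, V n := by
    intro x hx
    obtain ⟨t, ht, z, hz, hzt⟩ := mem_iUnion₂.1 (hT hx)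
    have hxt : x - t = z := by
      simp only at hzt
      rw [← hzt]; abel
    have hlim : Tendsto (fun n : ℕ => hm p (1 + 1 / ((n : ℝ) + 1)) z) atTop (𝓝 z) := by
      have h1 : Tendsto (fun n : ℕ => 1 + 1 / ((n : ℝ) + 1)) atTop (𝓝 (1 + 0)) :=
        tendsto_const_nhds.add tendsto_one_div_add_atTop_nhds_zero_nat
      have h2 : Tendsto (fun n : ℕ => p + (1 + 1 / ((n : ℝ) + 1)) • (z - p)) atTop
          (𝓝 (p + (1 + 0 : ℝ) • (z - p))) :=
        tendsto_const_nhds.add (h1.smul_const _)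
      have h3 : p + (1 + 0 : ℝ) • (z - p) = z := by module
      rw [h3] at h2
      exact h2
    obtain ⟨n, hn⟩ := (hlim.eventually (isOpen_interior.mem_nhds hz)).exists
    refine mem_iUnion.2 ⟨n, ?_⟩
    rw [hV]
    exact ⟨t, ht, by rw [hxt]; exact hn⟩
  obtain ⟨n, hn⟩ := hLc.elim_directed_cover V hopen hcov hmono.directed_le
  refine ⟨1 + 1 / ((n : ℝ) + 1), by
    have : (0 : ℝ) < 1 / ((n : ℝ) + 1) := by positivity
    linarith, fun x hx => ?_⟩
  have := hn hx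
  rw [hV] at this
  exact this

theorem simplex_mem {k : ℕ} {R : Set (Fin k → ℝ)} (hR : Convex ℝ R) (h0 : (0 : Fin k → ℝ) ∈ R)
    (h1 : ∀ i, Pi.single i (1 : ℝ) ∈ R) {y : Fin k → ℝ} (hy : ∀ i, 0 ≤ y i)
    (hs : ∑ i, y i ≤ 1) : y ∈ R := by
  classical
  have h := hR.sum_mem (t := (Finset.univ : Finset (Option (Fin k))))
    (w := fun o => o.elim (1 - ∑ i, y i) y)
    (z := fun o => o.elim (0 : Fin k → ℝ) fun i => Pi.single i (1 : ℝ)) ?_ ?_ ?_
  · have h2 : (∑ o : Option (Fin k), (o.elim (1 - ∑ i, y i) y : ℝ) •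
        (o.elim (0 : Fin k → ℝ) fun i => Pi.single i (1 : ℝ))) = y := by
      rw [Fintype.sum_option]
      simp only [Option.elim_none, Option.elim_some, smul_zero, zero_add]
      funext j
      rw [Finset.sum_apply, Finset.sum_eq_single j]
      · simp
      · intro i _ hij
        simp [Pi.single_eq_of_ne (Ne.symm hij)]
      · intro h; exact absurd (Finset.mem_univ j) h
    rwa [h2] at h
  · rintro (_ | i) -
    · simp only [Option.elim_none]; linarith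
    · exact hy i
  · rw [Fintype.sum_option]
    simp
  · rintro (_ | i) -
    · exact h0
    · exact h1 i

theorem ball_subset {k : ℕ} {R : Set (Fin k → ℝ)} (hR : Convex ℝ R) (h0 : (0 : Fin k → ℝ) ∈ R)
    (h1 : ∀ i, Pi.single i (1 : ℝ) ∈ R) :
    closedBall (fun _ : Fin k => 1 / ((k : ℝ) + 1)) (1 / ((k : ℝ) + 1) ^ 2) ⊆ R := by
  intro y hy
  have hk : (0 : ℝ) < (k : ℝ) + 1 := by positivity
  rw [mem_closedBall, dist_pi_le_iff (by positivity)] at hy
  have hy' : ∀ i, |y i - 1 / ((k : ℝ) + 1)| ≤ 1 / ((k : ℝ) + 1) ^ 2 := hy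
  have hle : 1 / ((k : ℝ) + 1) ^ 2 ≤ 1 / ((k : ℝ) + 1) := by
    rw [div_le_div_iff₀ (by positivity) hk]
    nlinarith [Nat.cast_nonneg (α := ℝ) k]
  refine simplex_mem hR h0 h1 (fun i => ?_) ?_
  · have := (abs_le.1 (hy' i)).1
    linarith
  · have h2 : ∑ i, y i ≤ ∑ _i : Fin k, (1 / ((k : ℝ) + 1) + 1 / ((k : ℝ) + 1) ^ 2) :=
      Finset.sum_le_sum fun i _ => by linarith [(abs_le.1 (hy' i)).2]
    refine h2.trans ?_
    rw [Finset.sum_const, Finset.card_univ, Fintype.card_fin, nsmul_eq_mul]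
    have h3 : (k : ℝ) * (1 / ((k : ℝ) + 1) + 1 / ((k : ℝ) + 1) ^ 2) =
        ((k : ℝ) * ((k : ℝ) + 2)) / ((k : ℝ) + 1) ^ 2 := by
      field_simp
      ring
    rw [h3, div_le_one (by positivity)]
    nlinarith

/-- **Stability.** If every convex body in dimension `k` is covered by `2 ^ k - 1` translates of its
interior or is a parallelotope, then there is a uniform `δ`. -/
theorem stable (k : ℕ) (H : ∀ Q : Set (Fin k → ℝ), Body Q → Cov (2 ^ k - 1) Q ∨
      ∃ (e : (Fin k → ℝ) ≃L[ℝ] (Fin k → ℝ)) (c : Fin k → ℝ),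
        Q = {x | ∀ i, |e x i - c i| ≤ 1}) {η : ℝ} (hη : 0 < η) :
    ∃ δ : ℝ, 0 < δ ∧ ∀ Q : Set (Fin k → ℝ), Body Q → CP (2 ^ k - 1) δ Q ∨ NPar k η Q := by
  classical
  by_contra hcon
  push Not at hcon
  have hex : ∀ n : ℕ, ∃ R : Set (Fin k → ℝ), Body R ∧ ¬ CP (2 ^ k - 1) (1 / ((n : ℝ) + 1)) R ∧
      ¬ NPar k η R ∧ (0 : Fin k → ℝ) ∈ R ∧ (∀ i, Pi.single i (1 : ℝ) ∈ R) ∧
      ∀ y ∈ R, ∀ i, |y i| ≤ 1 := by
    intro n
    obtain ⟨Q, hQ, h1, h2⟩ := hcon (1 / ((n : ℝ) + 1)) (by positivity)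
    obtain ⟨g, x₀, h3, h4, h5⟩ := exists_normal hQ
    exact ⟨_, body_transfer g x₀ hQ, fun h => h1 (cp_transfer g x₀ h),
      fun h => h2 (npar_transfer g x₀ h), h3, h4, h5⟩
  choose R hB hCP hNP hR0 hR1 hRb using hex
  obtain ⟨p, hp⟩ : ∃ p : Fin k → ℝ, p = fun _ => 1 / ((k : ℝ) + 1) := ⟨_, rfl⟩
  obtain ⟨ρ, hρ⟩ : ∃ ρ : ℝ, ρ = 1 / ((k : ℝ) + 1) ^ 2 := ⟨_, rfl⟩
  have hρ0 : 0 < ρ := by rw [hρ]; positivity
  have hball : ∀ n, closedBall p ρ ⊆ R n := by
    intro n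
    rw [hp, hρ]
    exact ball_subset (hB n).1 (hR0 n) (hR1 n)
  have hX : ∀ n, R n ⊆ closedBall (0 : Fin k → ℝ) 1 := by
    intro n y hy
    rw [mem_closedBall, dist_zero_right, pi_norm_le_iff_of_nonneg zero_le_one]
    exact fun i => hRb n y hy i
  have hXc : IsCompact (closedBall (0 : Fin k → ℝ) 1) := isCompact_closedBall _ _
  obtain ⟨U, hU⟩ : ∃ U : Ultrafilter ℕ, U = hyperfilter ℕ := ⟨_, rfl⟩
  obtain ⟨L, hL⟩ : ∃ L, L = lim U R := ⟨_, rfl⟩
  have hLconv : Convex ℝ L := by rw [hL]; exact convex_lim fun n => (hB n).1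
  have hLcomp : IsCompact L := by
    rw [hL]
    exact hXc.of_isClosed_subset isClosed_lim (lim_subset isClosed_closedBall hX)
  have hLball : closedBall p ρ ⊆ L := by rw [hL]; exact subset_lim hball
  have hpL : p ∈ interior L :=
    interior_mono hLball (ball_subset_interior_closedBall (mem_ball_self hρ0))
  have hpR : ∀ n, p ∈ interior (R n) := fun n =>
    interior_mono (hball n) (ball_subset_interior_closedBall (mem_ball_self hρ0))
  -- the two approximations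
  have happ : ∀ κ : ℝ, 0 < κ → ∀ᶠ n in (U : Filter ℕ),
      (∀ y ∈ R n, ∃ x ∈ L, y = hm p (1 + κ) x) ∧ (∀ x ∈ L, ∃ y ∈ R n, x = hm p (1 + κ) y) ∧
        1 / ((n : ℝ) + 1) ≤ κ := by
    intro κ hκ
    have h1 : ∀ᶠ n in (U : Filter ℕ), ∀ y ∈ R n, ∃ x ∈ lim U R, dist y x ≤ κ * ρ :=
      eventually_near_lim hXc hX (fun n => ⟨0, hR0 n⟩) (mul_pos hκ hρ0)
    have h2 : ∀ᶠ n in (U : Filter ℕ), ∀ x ∈ lim U R, ∃ y ∈ R n, dist x y ≤ κ * ρ :=
      eventually_lim_near hXc hX (mul_pos hκ hρ0)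
    have h3 : ∀ᶠ n : ℕ in (U : Filter ℕ), 1 / ((n : ℝ) + 1) < κ := by
      have h4 : ∀ᶠ n : ℕ in atTop, 1 / ((n : ℝ) + 1) < κ :=
        tendsto_one_div_add_atTop_nhds_zero_nat.eventually (gt_mem_nhds hκ)
      rw [hU]
      exact Nat.hyperfilter_le_atTop h4
    have hdiv : κ * ρ / ρ = κ := mul_div_cancel_right₀ _ hρ0.ne'
    filter_upwards [h1, h2, h3] with n h1 h2 h3
    refine ⟨fun y hy => ?_, fun x hx => ?_, h3.le⟩
    · have := exists_hm hLconv hρ0 (mul_pos hκ hρ0) hLball (y := y) (by rw [hL]; exact h1 y hy)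
      rwa [hdiv] at this
    · have := exists_hm (hB n).1 hρ0 (mul_pos hκ hρ0) (hball n) (y := x)
        (h2 x (by rw [← hL]; exact hx))
      rwa [hdiv] at this
  rcases H L ⟨hLconv, hLcomp, p, hpL⟩ with ⟨T, hT, hc⟩ | ⟨e, c, he⟩
  · -- robust covering
    obtain ⟨r, hr, hcr⟩ := exists_ratio hLconv hLcomp hpL hc
    obtain ⟨κ, hκ⟩ : ∃ κ : ℝ, κ = min 1 ((r - 1) / 7) := ⟨_, rfl⟩
    have hκ0 : 0 < κ := by rw [hκ]; exact lt_min one_pos (by linarith)
    have hκ1 : κ ≤ 1 := by rw [hκ]; exact min_le_left _ _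
    have hκ2 : κ ≤ (r - 1) / 7 := by rw [hκ]; exact min_le_right _ _
    obtain ⟨n, h1, h2, h3⟩ := (happ κ hκ0).exists
    refine hCP n ⟨T.image fun t => ((1 + 1 / ((n : ℝ) + 1)) * (1 + κ)) • t +
      (1 / ((n : ℝ) + 1)) • p, Finset.card_image_le.trans hT, fun x hx => ?_⟩
    obtain ⟨δ, hδ⟩ : ∃ δ : ℝ, δ = 1 / ((n : ℝ) + 1) := ⟨_, rfl⟩
    have hδ0 : 0 < δ := by rw [hδ]; positivity
    rw [← hδ] at h3 ⊢
    obtain ⟨x', hx', rfl⟩ := h1 x hx
    obtain ⟨t, ht, hw⟩ := hcr x' hx'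
    obtain ⟨w, hwd⟩ : ∃ w, w = hm p r (x' - t) := ⟨_, rfl⟩
    rw [← hwd] at hw
    -- `w` in the coordinates of `R n`
    have hy0 : hm p (1 + κ)⁻¹ w ∈ interior (R n) := by
      have hsub : hm p (1 + κ) ⁻¹' interior L ⊆ R n := by
        intro y hy
        obtain ⟨y', hy', h5⟩ := h2 _ (interior_subset hy)
        have h6 : y = y' := by
          have h7 := congrArg (hm p (1 + κ)⁻¹) h5
          rw [hm_hm, hm_hm, inv_mul_cancel₀ (by positivity), hm_one, hm_one] at h7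
          exact h7
        rw [h6]; exact hy'
      have hop : IsOpen (hm p (1 + κ) ⁻¹' interior L) :=
        isOpen_interior.preimage (continuous_hm _ _)
      refine interior_maximal hsub hop ?_
      show hm p (1 + κ) (hm p (1 + κ)⁻¹ w) ∈ interior L
      rw [hm_hm, mul_inv_cancel₀ (by positivity), hm_one]
      exact hw
    have hσ : (1 + δ) * (1 + κ) ^ 2 / r ≤ 1 := by
      rw [div_le_one (by linarith)]
      have h5 : (1 + δ) * (1 + κ) ^ 2 ≤ (1 + κ) ^ 3 := by nlinarith [sq_nonneg (1 + κ)]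
      nlinarith [sq_nonneg κ]
    refine ⟨_, Finset.mem_image_of_mem _ ht, hm p ((1 + δ) * (1 + κ) ^ 2 / r)
      (hm p (1 + κ)⁻¹ w), hm_int (hB n).1 (hpR n) (by positivity) hσ hy0, ?_⟩
    have hx't : x' - t = hm p r⁻¹ w := by
      rw [hwd, hm_hm, inv_mul_cancel₀ (by linarith), hm_one]
    have hx'e : x' = t + hm p r⁻¹ w := by rw [← hx't]; abel
    rw [hm_hm, hx'e]
    unfold hm
    have e1 : (1 + δ) * (1 + κ) ^ 2 / r * (1 + κ)⁻¹ = (1 + δ) * (1 + κ) * r⁻¹ := by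
      field_simp
    rw [e1]
    have e2 : (1 + κ) • (t + (p + r⁻¹ • (w - p)) - p) =
        (1 + κ) • t + ((1 + κ) * r⁻¹) • (w - p) := by
      rw [mul_smul]; module
    rw [e2, smul_add, smul_add, smul_smul, smul_smul, ← mul_assoc]
    module
  · -- close to a parallelotope
    obtain ⟨κ, hκ⟩ : ∃ κ : ℝ, κ = min 1 (η / 6) := ⟨_, rfl⟩
    have hκ0 : 0 < κ := by rw [hκ]; exact lt_min one_pos (by linarith)
    have hκ1 : κ ≤ 1 := by rw [hκ]; exact min_le_left _ _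
    have hκ2 : κ ≤ η / 6 := by rw [hκ]; exact min_le_right _ _
    obtain ⟨n, h1, h2, h3⟩ := (happ κ hκ0).exists
    have hmemL : ∀ x, x ∈ L ↔ ∀ i, |e x i - c i| ≤ 1 := fun x => by rw [he]; rfl
    have hpc : ∀ i, |e p i - c i| ≤ 1 := (hmemL p).1 (interior_subset hpL)
    have hne : (1 + κ) ≠ 0 := by positivity
    obtain ⟨e', he'⟩ : ∃ e' : (Fin k → ℝ) ≃L[ℝ] (Fin k → ℝ), ∀ x i,
        e' x i = (1 + κ) * e x i :=
      ⟨e.trans (LinearEquiv.smulOfNeZero ℝ (Fin k → ℝ) (1 + κ) hne).toContinuousLinearEquiv,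
        fun x i => rfl⟩
    have hhm : ∀ x i, e (hm p (1 + κ) x) i - c i =
        (1 + κ) * (e x i - c i) - κ * (e p i - c i) := by
      intro x i
      unfold hm
      rw [map_add, map_smul, map_sub, Pi.add_apply, Pi.smul_apply, Pi.sub_apply, smul_eq_mul]
      ring
    refine hNP n ⟨e', fun i => (1 + κ) * c i + κ * (e p i - c i), fun x hx => ?_,
      fun x hx i => ?_⟩
    · have h5 : hm p (1 + κ) x ∈ L := by
        rw [hmemL]
        intro i
        have h6 := hx i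
        rw [he'] at h6
        rw [hhm]
        have : (1 + κ) * e x i - ((1 + κ) * c i + κ * (e p i - c i)) =
            (1 + κ) * (e x i - c i) - κ * (e p i - c i) := by ring
        rwa [this] at h6
      obtain ⟨y, hy, h6⟩ := h2 _ h5
      have h7 : x = y := by
        have h8 := congrArg (hm p (1 + κ)⁻¹) h6
        rw [hm_hm, hm_hm, inv_mul_cancel₀ hne, hm_one, hm_one] at h8
        exact h8
      rw [h7]; exact hy
    · obtain ⟨x', hx', rfl⟩ := h1 x hx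
      have h5 := (hmemL x').1 hx' i
      have h6 := hpc i
      rw [he']
      have h7 : (1 + κ) * e (hm p (1 + κ) x') i - ((1 + κ) * c i + κ * (e p i - c i)) =
          (1 + κ) * ((1 + κ) * (e x' i - c i) - κ * (e p i - c i)) - κ * (e p i - c i) := by
        rw [← hhm]; ring
      have h8 : (1 + κ) * ((1 + κ) * (e x' i - c i) - κ * (e p i - c i)) - κ * (e p i - c i) =
          (1 + κ) ^ 2 * (e x' i - c i) - (κ * (2 + κ)) * (e p i - c i) := by ring
      rw [h7, h8]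
      have h9 : |(1 + κ) ^ 2 * (e x' i - c i)| ≤ (1 + κ) ^ 2 := by
        rw [abs_mul, abs_of_nonneg (sq_nonneg (1 + κ))]
        exact mul_le_of_le_one_right (sq_nonneg _) h5
      have hκ3 : 0 ≤ κ * (2 + κ) := by positivity
      have h10 : |κ * (2 + κ) * (e p i - c i)| ≤ κ * (2 + κ) := by
        rw [abs_mul, abs_of_nonneg hκ3]
        exact mul_le_of_le_one_right hκ3 h6
      refine (abs_sub _ _).trans ?_
      nlinarith

end Pool.Agent.V7H11.NP
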